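import Mathlib

namespace Pool.Agent.Lib.PR

open Finset

attribute [fun_prop] Primrec Computable

variable {α β γ σ : Type} [Primcodable α] [Primcodable β] [Primcodable γ] [Primcodable σ]

@[fun_prop] theorem p_id : Primrec fun a : α => a := .id
@[fun_prop] theorem p_const (b : β) : Primrec fun _ : α => b := .const b
@[fun_prop] theorem p_comp {f : β → γ} {g : α → β} (hf : Primrec f) (hg : Primrec g) :
    Primrec fun a => f (g a) := hf.comp hg
@[fun_prop] theorem p_pair {f : α → β} {g : α → γ} (hf : Primrec f) (hg : Primrec g) :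
    Primrec fun a => (f a, g a) := hf.pair hg
@[fun_prop] theorem p_fst {f : α → β × γ} (hf : Primrec f) : Primrec fun a => (f a).1 :=
  Primrec.fst.comp hf
@[fun_prop] theorem p_snd {f : α → β × γ} (hf : Primrec f) : Primrec fun a => (f a).2 :=
  Primrec.snd.comp hf
@[fun_prop] theorem p_cond {c : α → Bool} {f g : α → β} (hc : Primrec c) (hf : Primrec f)
    (hg : Primrec g) : Primrec fun a => cond (c a) (f a) (g a) := hc.cond hf hg

/-- classical truth value; all rules for propositions go through it -/
@[irreducible] noncomputable def cd (p : Prop) : Bool := @decide p (Classical.propDecidable p)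

@[simp] theorem cd_true {p : Prop} : cd p = true ↔ p := by simp [cd]

theorem pred {p : α → Prop} (h : Primrec fun a => cd (p a)) : PrimrecPred p :=
  ⟨fun _ => Classical.propDecidable _, h.of_eq fun _ => by rw [cd]⟩
theorem dec {p : α → Prop} (h : PrimrecPred p) : Primrec fun a => cd (p a) :=
  (@PrimrecPred.decide _ _ p (fun _ => Classical.propDecidable _) h).of_eq fun _ => by rw [cd]
@[fun_prop] theorem p_decide {p : α → Prop} {k : ∀ a, Decidable (p a)}
    (h : Primrec fun a => cd (p a)) : Primrec fun a => @decide (p a) (k a) :=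
  @PrimrecPred.decide _ _ p k (pred h)
@[fun_prop] theorem p_ite {c : α → Prop} {i : ∀ a, Decidable (c a)} {f g : α → β}
    (hc : Primrec fun a => cd (c a)) (hf : Primrec f) (hg : Primrec g) :
    Primrec fun a => @ite _ (c a) (i a) (f a) (g a) := @Primrec.ite _ _ _ _ c i _ _ (pred hc) hf hg

section
variable {m n : α → ℕ}
@[fun_prop] theorem p_add (hm : Primrec m) (hn : Primrec n) : Primrec fun a => m a + n a :=
  Primrec.nat_add.comp hm hn
@[fun_prop] theorem p_sub (hm : Primrec m) (hn : Primrec n) : Primrec fun a => m a - n a :=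
  Primrec.nat_sub.comp hm hn
@[fun_prop] theorem p_mul (hm : Primrec m) (hn : Primrec n) : Primrec fun a => m a * n a :=
  Primrec.nat_mul.comp hm hn
@[fun_prop] theorem p_div (hm : Primrec m) (hn : Primrec n) : Primrec fun a => m a / n a :=
  Primrec.nat_div.comp hm hn
@[fun_prop] theorem p_mod (hm : Primrec m) (hn : Primrec n) : Primrec fun a => m a % n a :=
  Primrec.nat_mod.comp hm hn
@[fun_prop] theorem p_pow (hm : Primrec m) (hn : Primrec n) : Primrec fun a => m a ^ n a :=
  (Primrec₂.unpaired'.1 Nat.Primrec.pow).comp hm hn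
@[fun_prop] theorem p_min (hm : Primrec m) (hn : Primrec n) : Primrec fun a => min (m a) (n a) :=
  Primrec.nat_min.comp hm hn
@[fun_prop] theorem p_max (hm : Primrec m) (hn : Primrec n) : Primrec fun a => max (m a) (n a) :=
  Primrec.nat_max.comp hm hn
@[fun_prop] theorem p_succ (hm : Primrec m) : Primrec fun a => (m a).succ := Primrec.succ.comp hm
@[fun_prop] theorem p_pred (hm : Primrec m) : Primrec fun a => (m a).pred := Primrec.pred.comp hm
@[fun_prop] theorem p_natPair (hm : Primrec m) (hn : Primrec n) :
    Primrec fun a => Nat.pair (m a) (n a) := Primrec₂.natPair.comp hm hn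
@[fun_prop] theorem p_unpair (hm : Primrec m) : Primrec fun a => (m a).unpair :=
  Primrec.unpair.comp hm
@[fun_prop] theorem p_sqrt (hm : Primrec m) : Primrec fun a => (m a).sqrt :=
  Primrec.nat_sqrt.comp hm
@[fun_prop] theorem p_range (hm : Primrec m) : Primrec fun a => List.range (m a) :=
  Primrec.list_range.comp hm
@[fun_prop] theorem p_le (hm : Primrec m) (hn : Primrec n) :
    Primrec fun a => cd (m a ≤ n a) := dec (Primrec.nat_le.comp hm hn)
@[fun_prop] theorem p_lt (hm : Primrec m) (hn : Primrec n) :
    Primrec fun a => cd (m a < n a) := dec (Primrec.nat_lt.comp hm hn)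
@[fun_prop] theorem p_ge (hm : Primrec m) (hn : Primrec n) :
    Primrec fun a => cd (m a ≥ n a) := dec (Primrec.nat_le.comp hn hm)
@[fun_prop] theorem p_gt (hm : Primrec m) (hn : Primrec n) :
    Primrec fun a => cd (m a > n a) := dec (Primrec.nat_lt.comp hn hm)
@[fun_prop] theorem p_dvd (hm : Primrec m) (hn : Primrec n) :
    Primrec fun a => cd (m a ∣ n a) :=
  dec ((Primrec.eq.comp (p_mod hn hm) (.const 0)).of_eq fun _ => Nat.dvd_iff_mod_eq_zero.symm)
@[fun_prop] theorem p_decode (hm : Primrec m) : Primrec fun a => Encodable.decode (α := β) (m a) :=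
  Primrec.decode.comp hm
@[fun_prop] theorem p_rec {g : α → β} {h : α → ℕ → β → β} (hm : Primrec m) (hg : Primrec g)
    (hh : Primrec fun p : α × ℕ × β => h p.1 p.2.1 p.2.2) :
    Primrec fun a => Nat.rec (motive := fun _ => β) (g a) (h a) (m a) :=
  Primrec.nat_rec' (h := fun a p => h a p.1 p.2) hm hg hh
@[fun_prop] theorem p_iterate {g : α → β} {h : α → β → β} (hm : Primrec m) (hg : Primrec g)
    (hh : Primrec fun p : α × β => h p.1 p.2) : Primrec fun a => (h a)^[m a] (g a) :=
  Primrec.nat_iterate hm hg hh
@[fun_prop] theorem p_evaln {c : α → Nat.Partrec.Code} (hm : Primrec m) (hc : Primrec c)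
    (hn : Primrec n) : Primrec fun a => Nat.Partrec.Code.evaln (m a) (c a) (n a) :=
  Nat.Partrec.Code.primrec_evaln.comp ((hm.pair hc).pair hn)
@[fun_prop] theorem p_sum {f : α → ℕ → ℕ} (hf : Primrec fun p : α × ℕ => f p.1 p.2)
    (hm : Primrec m) : Primrec fun a => ∑ v ∈ range (m a), f a v :=
  (p_rec (g := fun _ => 0) (h := fun a v s => s + f a v) hm (.const 0) (by fun_prop)).of_eq
    fun a => by
      induction m a with
      | zero => rfl
      | succ k ih => rw [sum_range_succ, ← ih]
@[fun_prop] theorem p_prod {f : α → ℕ → ℕ} (hf : Primrec fun p : α × ℕ => f p.1 p.2)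
    (hm : Primrec m) : Primrec fun a => ∏ v ∈ range (m a), f a v :=
  (p_rec (g := fun _ => 1) (h := fun a v s => s * f a v) hm (.const 1) (by fun_prop)).of_eq
    fun a => by
      induction m a with
      | zero => rfl
      | succ k ih => rw [prod_range_succ, ← ih]
end

@[fun_prop] theorem p_ofNat {δ : Type} [Denumerable δ] {m : α → ℕ} (hm : Primrec m) :
    Primrec fun a => Denumerable.ofNat δ (m a) := (Primrec.ofNat δ).comp hm
@[fun_prop] theorem p_encode {f : α → β} (hf : Primrec f) : Primrec fun a => Encodable.encode (f a) :=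
  Primrec.encode.comp hf
@[fun_prop] theorem p_some {f : α → β} (hf : Primrec f) : Primrec fun a => some (f a) :=
  Primrec.option_some.comp hf
@[fun_prop] theorem p_ogetD {f : α → Option β} {g : α → β} (hf : Primrec f) (hg : Primrec g) :
    Primrec fun a => (f a).getD (g a) := Primrec.option_getD.comp hf hg
@[fun_prop] theorem p_isSome {f : α → Option β} (hf : Primrec f) : Primrec fun a => (f a).isSome :=
  Primrec.option_isSome.comp hf
@[fun_prop] theorem p_obind {f : α → Option β} {g : α → β → Option γ} (hf : Primrec f)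
    (hg : Primrec fun p : α × β => g p.1 p.2) : Primrec fun a => (f a).bind (g a) :=
  Primrec.option_bind hf hg
@[fun_prop] theorem p_omap {f : α → Option β} {g : α → β → γ} (hf : Primrec f)
    (hg : Primrec fun p : α × β => g p.1 p.2) : Primrec fun a => (f a).map (g a) :=
  Primrec.option_map hf hg
@[fun_prop] theorem p_not {f : α → Bool} (hf : Primrec f) : Primrec fun a => !f a :=
  Primrec.not.comp hf
@[fun_prop] theorem p_and {f g : α → Bool} (hf : Primrec f) (hg : Primrec g) :
    Primrec fun a => f a && g a := Primrec.and.comp hf hg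
@[fun_prop] theorem p_or {f g : α → Bool} (hf : Primrec f) (hg : Primrec g) :
    Primrec fun a => f a || g a := Primrec.or.comp hf hg
@[fun_prop] theorem p_xor {f g : α → Bool} (hf : Primrec f) (hg : Primrec g) :
    Primrec fun a => xor (f a) (g a) := (Primrec.dom_bool₂ xor).comp hf hg
@[fun_prop] theorem p_toNat {f : α → Bool} (hf : Primrec f) : Primrec fun a => (f a).toNat :=
  (Primrec.dom_bool Bool.toNat).comp hf

section
variable {p q : α → Prop}
@[fun_prop] theorem p_dnot (hp : Primrec fun a => cd (p a)) :
    Primrec fun a => cd (¬p a) := dec (pred hp).not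
@[fun_prop] theorem p_dand
    (hp : Primrec fun a => cd (p a)) (hq : Primrec fun a => cd (q a)) :
    Primrec fun a => cd (p a ∧ q a) := dec ((pred hp).and (pred hq))
@[fun_prop] theorem p_dor
    (hp : Primrec fun a => cd (p a)) (hq : Primrec fun a => cd (q a)) :
    Primrec fun a => cd (p a ∨ q a) := dec ((pred hp).or (pred hq))
@[fun_prop] theorem p_dimp
    (hp : Primrec fun a => cd (p a)) (hq : Primrec fun a => cd (q a)) :
    Primrec fun a => cd (p a → q a) :=
  dec (((pred hp).not.or (pred hq)).of_eq fun _ => imp_iff_not_or.symm)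
@[fun_prop] theorem p_diff
    (hp : Primrec fun a => cd (p a)) (hq : Primrec fun a => cd (q a)) :
    Primrec fun a => cd (p a ↔ q a) :=
  dec ((Primrec.eq.comp hp hq).of_eq fun _ => by rw [Bool.eq_iff_iff]; simp)
end

@[fun_prop] theorem p_eq {f g : α → β} (hf : Primrec f)
    (hg : Primrec g) : Primrec fun a => cd (f a = g a) := dec (Primrec.eq.comp hf hg)
@[fun_prop] theorem p_ne {f g : α → β} (hf : Primrec f)
    (hg : Primrec g) : Primrec fun a => cd (f a ≠ g a) :=
  dec (Primrec.eq.comp hf hg).not
@[fun_prop] theorem p_beq [BEq β] [LawfulBEq β] {f g : α → β} (hf : Primrec f) (hg : Primrec g) :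
    Primrec fun a => f a == g a := by
  exact (p_eq hf hg).of_eq fun a => by rw [Bool.eq_iff_iff]; simp

section
variable {l l' : α → List β} {f : α → β} {m : α → ℕ}
@[fun_prop] theorem p_cons (hf : Primrec f) (hl : Primrec l) : Primrec fun a => f a :: l a :=
  Primrec.list_cons.comp hf hl
@[fun_prop] theorem p_append (hl : Primrec l) (h : Primrec l') : Primrec fun a => l a ++ l' a :=
  Primrec.list_append.comp hl h
@[fun_prop] theorem p_length (hl : Primrec l) : Primrec fun a => (l a).length :=
  Primrec.list_length.comp hl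
@[fun_prop] theorem p_reverse (hl : Primrec l) : Primrec fun a => (l a).reverse :=
  Primrec.list_reverse.comp hl
@[fun_prop] theorem p_tail (hl : Primrec l) : Primrec fun a => (l a).tail :=
  Primrec.list_tail.comp hl
@[fun_prop] theorem p_head? (hl : Primrec l) : Primrec fun a => (l a).head? :=
  Primrec.list_head?.comp hl
@[fun_prop] theorem p_headD (hl : Primrec l) (hf : Primrec f) : Primrec fun a => (l a).headD (f a) :=
  (p_ogetD (p_head? hl) hf).of_eq fun a => by cases l a <;> rfl
@[fun_prop] theorem p_getElem? (hl : Primrec l) (hm : Primrec m) : Primrec fun a => (l a)[m a]? :=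
  Primrec.list_getElem?.comp hl hm
@[fun_prop] theorem p_getD (hl : Primrec l) (hm : Primrec m) (hf : Primrec f) :
    Primrec fun a => (l a).getD (m a) (f a) := p_ogetD (p_getElem? hl hm) hf
@[fun_prop] theorem p_take (hm : Primrec m) (hl : Primrec l) : Primrec fun a => (l a).take (m a) :=
  Primrec.list_take.comp hm hl
@[fun_prop] theorem p_drop (hm : Primrec m) (hl : Primrec l) : Primrec fun a => (l a).drop (m a) :=
  Primrec.list_drop.comp hm hl
@[fun_prop] theorem p_set (hl : Primrec l) (hm : Primrec m) (hf : Primrec f) :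
    Primrec fun a => (l a).set (m a) (f a) := Primrec.list_set.comp hl (hm.pair hf)
@[fun_prop] theorem p_flatten {L : α → List (List β)} (h : Primrec L) :
    Primrec fun a => (L a).flatten := Primrec.list_flatten.comp h
@[fun_prop] theorem p_map {g : α → β → γ} (hg : Primrec fun p : α × β => g p.1 p.2)
    (hl : Primrec l) : Primrec fun a => (l a).map (g a) := Primrec.list_map hl hg
@[fun_prop] theorem p_flatMap {g : α → β → List γ} (hg : Primrec fun p : α × β => g p.1 p.2)
    (hl : Primrec l) : Primrec fun a => (l a).flatMap (g a) := Primrec.list_flatMap hl hg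
@[fun_prop] theorem p_filterMap {g : α → β → Option γ} (hg : Primrec fun p : α × β => g p.1 p.2)
    (hl : Primrec l) : Primrec fun a => (l a).filterMap (g a) := Primrec.listFilterMap hl hg
@[fun_prop] theorem p_filter {g : α → β → Bool} (hg : Primrec fun p : α × β => g p.1 p.2)
    (hl : Primrec l) : Primrec fun a => (l a).filter (g a) :=
  (p_filterMap (g := fun a x => bif g a x then some x else none) (by fun_prop) hl).of_eq fun a => by
    rw [← List.filterMap_eq_filter]
    congr 1
    funext x
    cases h : g a x <;> simp [Option.guard, h]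
@[fun_prop] theorem p_findIdx {g : α → β → Bool} (hg : Primrec fun p : α × β => g p.1 p.2)
    (hl : Primrec l) : Primrec fun a => (l a).findIdx (g a) := Primrec.list_findIdx hl hg
@[fun_prop] theorem p_find? {g : α → β → Bool} (hg : Primrec fun p : α × β => g p.1 p.2)
    (hl : Primrec l) : Primrec fun a => (l a).find? (g a) :=
  (p_head? (p_filter hg hl)).of_eq fun a => by simp
@[fun_prop] theorem p_countP {g : α → β → Bool} (hg : Primrec fun p : α × β => g p.1 p.2)
    (hl : Primrec l) : Primrec fun a => (l a).countP (g a) :=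
  (p_length (p_filter hg hl)).of_eq fun _ => List.countP_eq_length_filter.symm
@[fun_prop] theorem p_foldl {g : α → σ} {h : α → σ → β → σ}
    (hh : Primrec fun p : α × σ × β => h p.1 p.2.1 p.2.2) (hg : Primrec g) (hl : Primrec l) :
    Primrec fun a => (l a).foldl (h a) (g a) :=
  Primrec.list_foldl (h := fun a p => h a p.1 p.2) hl hg hh
@[fun_prop] theorem p_foldr {g : α → σ} {h : α → β → σ → σ}
    (hh : Primrec fun p : α × β × σ => h p.1 p.2.1 p.2.2) (hg : Primrec g) (hl : Primrec l) :
    Primrec fun a => (l a).foldr (h a) (g a) :=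
  Primrec.list_foldr (h := fun a p => h a p.1 p.2) hl hg hh
@[fun_prop] theorem p_lsum {l : α → List ℕ} (hl : Primrec l) : Primrec fun a => (l a).sum :=
  p_foldr (g := fun _ => 0) (h := fun _ x s => x + s) (by fun_prop) (.const 0) hl
@[fun_prop] theorem p_replicate (hm : Primrec m) (hf : Primrec f) :
    Primrec fun a => List.replicate (m a) (f a) :=
  (p_map (g := fun a _ => f a) (by fun_prop) (p_range hm)).of_eq fun a => by simp
@[fun_prop] theorem p_all {g : α → β → Bool} (hg : Primrec fun p : α × β => g p.1 p.2)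
    (hl : Primrec l) : Primrec fun a => (l a).all (g a) :=
  (p_foldr (g := fun _ => true) (h := fun a x s => g a x && s) (by fun_prop) (.const _) hl).of_eq
    fun a => by induction l a <;> simp [*]
@[fun_prop] theorem p_any {g : α → β → Bool} (hg : Primrec fun p : α × β => g p.1 p.2)
    (hl : Primrec l) : Primrec fun a => (l a).any (g a) :=
  (p_foldr (g := fun _ => false) (h := fun a x s => g a x || s) (by fun_prop) (.const _) hl).of_eq
    fun a => by induction l a <;> simp [*]
@[fun_prop] theorem p_forall {P : α → β → Prop}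
    (hP : Primrec fun p : α × β => cd (P p.1 p.2)) (hl : Primrec l) :
    Primrec fun a => cd (∀ x ∈ l a, P a x) :=
  (p_all (g := fun a x => cd (P a x)) hP hl).of_eq fun a => by
    rw [Bool.eq_iff_iff]; simp
@[fun_prop] theorem p_exists {P : α → β → Prop}
    (hP : Primrec fun p : α × β => cd (P p.1 p.2)) (hl : Primrec l) :
    Primrec fun a => cd (∃ x ∈ l a, P a x) :=
  (p_any (g := fun a x => cd (P a x)) hP hl).of_eq fun a => by
    rw [Bool.eq_iff_iff]; simp
@[fun_prop] theorem p_mem (hf : Primrec f) (hl : Primrec l) :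
    Primrec fun a => cd (f a ∈ l a) := by
  classical
  exact (p_any (g := fun a x => decide (f a = x)) (by fun_prop) hl).of_eq fun a => by
    rw [Bool.eq_iff_iff]; simp
@[fun_prop] theorem p_pre (hl : Primrec l) (h : Primrec l') :
    Primrec fun a => cd (l a <+: l' a) :=
  dec ((Primrec.eq.comp hl (p_take (p_length hl) h)).of_eq fun _ => List.prefix_iff_eq_take.symm)
@[fun_prop] theorem p_forall_lt {P : α → ℕ → Prop}
    (hP : Primrec fun p : α × ℕ => cd (P p.1 p.2)) (hm : Primrec m) :
    Primrec fun a => cd (∀ x < m a, P a x) :=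
  (p_all (g := fun a x => cd (P a x)) hP (p_range hm)).of_eq fun a => by
    rw [Bool.eq_iff_iff]; simp
@[fun_prop] theorem p_exists_lt {P : α → ℕ → Prop}
    (hP : Primrec fun p : α × ℕ => cd (P p.1 p.2)) (hm : Primrec m) :
    Primrec fun a => cd (∃ x < m a, P a x) :=
  (p_any (g := fun a x => cd (P a x)) hP (p_range hm)).of_eq fun a => by
    rw [Bool.eq_iff_iff]; simp
@[fun_prop] theorem p_forall_le {P : α → ℕ → Prop}
    (hP : Primrec fun p : α × ℕ => cd (P p.1 p.2)) (hm : Primrec m) :
    Primrec fun a => cd (∀ x ≤ m a, P a x) :=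
  (p_all (g := fun a x => cd (P a x)) hP (p_range (p_succ hm))).of_eq fun a => by
    rw [Bool.eq_iff_iff]; simp
@[fun_prop] theorem p_exists_le {P : α → ℕ → Prop}
    (hP : Primrec fun p : α × ℕ => cd (P p.1 p.2)) (hm : Primrec m) :
    Primrec fun a => cd (∃ x ≤ m a, P a x) :=
  (p_any (g := fun a x => cd (P a x)) hP (p_range (p_succ hm))).of_eq fun a => by
    rw [Bool.eq_iff_iff]; simp
@[fun_prop] theorem p_card {P : α → ℕ → Prop} {i : ∀ a, DecidablePred (P a)}
    (hP : Primrec fun p : α × ℕ => cd (P p.1 p.2)) (hm : Primrec m) :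
    Primrec fun a => (@filter _ (P a) (i a) (range (m a))).card :=
  (p_length (p_filter (g := fun a x => @decide (P a x) (i a x))
    (p_decide (k := fun p : α × ℕ => i p.1 p.2) hP) (p_range hm))).of_eq fun _ => rfl
end

@[fun_prop] theorem c_id : Computable fun a : α => a := .id
@[fun_prop] theorem c_const (b : β) : Computable fun _ : α => b := .const b
@[fun_prop] theorem c_comp {f : β → γ} {g : α → β} (hf : Computable f) (hg : Computable g) :
    Computable fun a => f (g a) := hf.comp hg
@[fun_prop] theorem c_pair {f : α → β} {g : α → γ} (hf : Computable f) (hg : Computable g) :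
    Computable fun a => (f a, g a) := hf.pair hg
@[fun_prop] theorem c_fst {f : α → β × γ} (hf : Computable f) : Computable fun a => (f a).1 :=
  Computable.fst.comp hf
@[fun_prop] theorem c_snd {f : α → β × γ} (hf : Computable f) : Computable fun a => (f a).2 :=
  Computable.snd.comp hf
@[fun_prop] theorem c_prim {f : α → β} (hf : Primrec f) : Computable f := hf.to_comp

/-- a semidecidable predicate has a monotone primitive recursive approximation -/
theorem re_bool {p : α → Prop} (h : REPred p) : ∃ N : α → ℕ → Bool,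
    Primrec (fun x : α × ℕ => N x.1 x.2) ∧ (∀ a t, N a t = true → p a) ∧
      (∀ a t t', t ≤ t' → N a t = true → N a t' = true) ∧ ∀ a, p a → ∃ t, N a t = true := by
  obtain ⟨c, hc⟩ := Nat.Partrec.Code.exists_code.mp h
  have key : ∀ a, p a ↔ ∃ x, x ∈ c.eval (Encodable.encode a) := fun a => by
    rw [hc]
    simp [Part.mem_assert_iff]
  refine ⟨fun a t => (Nat.Partrec.Code.evaln t c (Encodable.encode a)).isSome, by fun_prop,
    fun a t ht => ?_, fun a t t' h ht => ?_, fun a ha => ?_⟩
  · obtain ⟨x, hx⟩ := Option.isSome_iff_exists.mp ht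
    exact (key a).mpr ⟨x, Nat.Partrec.Code.evaln_sound hx⟩
  · obtain ⟨x, hx⟩ := Option.isSome_iff_exists.mp ht
    exact Option.isSome_iff_exists.mpr ⟨x, Nat.Partrec.Code.evaln_mono h hx⟩
  · obtain ⟨x, hx⟩ := (key a).mp ha
    obtain ⟨k, hk⟩ := Nat.Partrec.Code.evaln_complete.mp hx
    exact ⟨k, Option.isSome_iff_exists.mpr ⟨x, hk⟩⟩

/-- the graph of a partial computable function has a monotone primitive recursive approximation -/
theorem graph_bool {M : α →. β} (h : Partrec M) : ∃ N : α → β → ℕ → Bool,
    Primrec (fun x : α × β × ℕ => N x.1 x.2.1 x.2.2) ∧ (∀ a b t, N a b t = true → b ∈ M a) ∧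
      (∀ a b t t', t ≤ t' → N a b t = true → N a b t' = true) ∧
        ∀ a, ∀ b ∈ M a, ∃ t, N a b t = true := by
  obtain ⟨c, hc⟩ := Nat.Partrec.Code.exists_code.mp h
  have key : ∀ a b, b ∈ M a ↔ Encodable.encode b ∈ c.eval (Encodable.encode a) := fun a b => by
    rw [hc]
    simp
  refine ⟨fun a b t => decide (Nat.Partrec.Code.evaln t c (Encodable.encode a) =
    some (Encodable.encode b)), by fun_prop, fun a b t ht => (key _ _).2
      (Nat.Partrec.Code.evaln_sound (of_decide_eq_true ht)), fun a b t t' h ht => decide_eq_true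
        (Nat.Partrec.Code.evaln_mono h (of_decide_eq_true ht)), fun a b hb => ?_⟩
  obtain ⟨k, hk⟩ := Nat.Partrec.Code.evaln_complete.mp ((key _ _).1 hb)
  exact ⟨k, decide_eq_true hk⟩

end Pool.Agent.Lib.PR
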