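import Pool.Agent.H.MP_7c40ec_lc.Link
import Pool.Agent.Lib.helper13.PR

namespace Pool.Agent.Lib.KAPI

open Finset hiding val
open Filter Classical MeasureTheory Pool.Agent.Lib.PR Pool.Agent.H.MP_7c40ec_lc

attribute [local irreducible] Primrec Computable

section
variable {α β : Type} [Primcodable α] [Primcodable β]

@[fun_prop] theorem p_nodup {l : α → List β} (hl : Primrec l) : Primrec fun a => cd (l a).Nodup :=
  dec ((pred (p := fun a => ∀ j < (l a).length, ∀ i < j, (l a)[i]? ≠ (l a)[j]?) (by fun_prop)).of_eq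
    fun _ => by rw [List.nodup_iff_getElem?_ne_getElem?]; tauto)

@[fun_prop] theorem p_val : Primrec val := prim_val
@[fun_prop] theorem p_un : Primrec un := prim_un
@[fun_prop] theorem p_hd : Primrec hd := prim_hd
@[fun_prop] theorem p_tl : Primrec tl := prim_tl

theorem re_prim {p : α → Prop} (h : Primrec fun a => cd (p a)) : REPred p :=
  ComputablePred.to_re (PrimrecPred.computablePred (pred h))

theorem re_cmp {p : β → Prop} (hp : REPred p) (f : α → β) (hf : Computable f) :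
    REPred fun a => p (f a) := Partrec.comp hp hf

theorem re_exists {R : α → β → Prop} (h : REPred fun p : α × β => R p.1 p.2) :
    REPred fun a => ∃ w, R a w := by
  obtain ⟨N, h1, h2, -, h3⟩ := re_bool h
  exact (re_ex (R := fun a (w : β × ℕ) => N (a, w.1) w.2 = true) (pred (by fun_prop))).of_eq fun a =>
    ⟨fun ⟨w, hw⟩ => ⟨w.1, h2 _ _ hw⟩, fun ⟨w, hw⟩ => (h3 (a, w) hw).elim fun t ht => ⟨(w, t), ht⟩⟩

theorem re_and {p q : α → Prop} (hp : REPred p) (hq : REPred q) : REPred fun a => p a ∧ q a := by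
  obtain ⟨N, h1, h2, -, h3⟩ := re_bool hp
  obtain ⟨M, g1, g2, -, g3⟩ := re_bool hq
  exact (re_ex (R := fun a (w : ℕ × ℕ) => N a w.1 = true ∧ M a w.2 = true) (pred (by fun_prop))).of_eq
    fun a => ⟨fun ⟨w, hw⟩ => ⟨h2 _ _ hw.1, g2 _ _ hw.2⟩, fun h => (h3 a h.1).elim fun t ht =>
      (g3 a h.2).elim fun s hs => ⟨(t, s), ht, hs⟩⟩

theorem re_or {p q : α → Prop} (hp : REPred p) (hq : REPred q) : REPred fun a => p a ∨ q a := by
  obtain ⟨N, h1, h2, -, h3⟩ := re_bool hp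
  obtain ⟨M, g1, g2, -, g3⟩ := re_bool hq
  exact (re_ex (R := fun a (w : ℕ) => N a w = true ∨ M a w = true) (pred (by fun_prop))).of_eq
    fun a => ⟨fun ⟨w, hw⟩ => hw.imp (h2 _ _) (g2 _ _), fun h => h.elim
      (fun h => (h3 a h).imp fun _ => Or.inl) fun h => (g3 a h).imp fun _ => Or.inr⟩

theorem re_ball {R : α → β → Prop} (h : REPred fun p : α × β => R p.1 p.2) {l : α → List β}
    (hl : Primrec l) : REPred fun a => ∀ x ∈ l a, R a x := by
  obtain ⟨N, h1, h2, h4, h3⟩ := re_bool h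
  refine (re_ex (R := fun a (t : ℕ) => ∀ x ∈ l a, N (a, x) t = true) (pred (by fun_prop))).of_eq
    fun a => ⟨fun ⟨t, ht⟩ x hx => h2 _ _ (ht x hx), fun h => ?_⟩
  choose! t ht using fun x hx => h3 (a, x) (h x hx)
  exact ⟨((l a).map t).sum, fun x hx => h4 _ _ _ (List.single_le_sum (by simp) _
    (List.mem_map_of_mem hx)) (ht x hx)⟩

theorem re_graph {M : α →. β} (h : Partrec M) : REPred fun p : α × β => p.2 ∈ M p.1 := by
  obtain ⟨N, h1, h2, -, h3⟩ := graph_bool h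
  exact (re_ex (R := fun (p : α × β) (t : ℕ) => N p.1 p.2 t = true) (pred (by fun_prop))).of_eq
    fun a => ⟨fun ⟨w, hw⟩ => h2 _ _ _ hw, h3 _ _⟩

theorem re_eq {f g : α → β} (hf : Computable f) (hg : Computable g) : REPred fun a => f a = g a :=
  re_cmp (re_prim (p := fun p : β × β => p.1 = p.2) (by fun_prop)) (fun a => (f a, g a))
    (by fun_prop)
end

abbrev Str := List Bool

/-- the properties of plain complexity that proofs use -/
structure Plain (C : Str → ℕ) : Prop where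
  card : ∀ m (F : Finset Str), (∀ x ∈ F, C x ≤ m) → #F ≤ 2 ^ (m + 1)
  re : REPred fun p : Str × ℕ => C p.1 ≤ p.2
  code : ∀ R : ℕ → ℕ → Str → Prop, REPred (fun p : ℕ × ℕ × Str => R p.1 p.2.1 p.2.2) → ∃ c, ∀ d l,
    (∀ F : Finset Str, (∀ x ∈ F, R d l x) → #F ≤ 2 ^ l) → ∀ x, R d l x → C x ≤ l + d + c

/-- the properties of prefix-free complexity that proofs use -/
structure Pref (K : Str → ℕ) : Prop where
  kraft : ∀ F : Finset Str, ∑ x ∈ F, (1 / 2 : ℝ) ^ K x ≤ 1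
  re : REPred fun p : Str × ℕ => K p.1 ≤ p.2
  code : ∀ R : Str → ℕ → Prop, REPred (fun p : Str × ℕ => R p.1 p.2) →
    (∀ F : Finset (Str × ℕ), (∀ p ∈ F, R p.1 p.2) → ∑ p ∈ F, (1 / 2 : ℝ) ^ p.2 ≤ 1) →
      ∃ c, ∀ x l, R x l → K x ≤ l + c

theorem cx_re' {M : Str →. Str} (hM : Partrec M) (h : ∀ x, ∃ q, x ∈ M q) :
    REPred fun p : Str × ℕ => cx M p.1 ≤ p.2 :=
  (re_exists (R := fun (p : Str × ℕ) (q : Str) => q.length ≤ p.2 ∧ p.1 ∈ M q) (re_and
    (re_prim (by fun_prop)) (re_cmp (re_graph hM) (fun x : (Str × ℕ) × Str => (x.2, x.1.1)) (by fun_prop)))).of_eq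
    fun p => ⟨fun ⟨_, a, b⟩ => (cx_le b).trans a, fun a => (h p.1).elim fun _ hq =>
      (cx_spec hq).elim fun q b => ⟨q, b.1 ▸ a, b.2⟩⟩

theorem plain {U : Str →. Str} (hU : Partrec U) (oU : ∀ M : Str →. Str, Partrec M →
    ∃ c : ℕ, ∀ p z, z ∈ M p → ∃ q : Str, q.length ≤ p.length + c ∧ z ∈ U q) : Plain (cx U) := by
  have eU : ∀ x, ∃ q, x ∈ U q := fun x => by
    obtain ⟨c, hc⟩ := oU (fun p => Part.some p) Computable.id.partrec
    exact (hc _ _ (Part.mem_some _)).imp fun _ h => h.2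
  refine ⟨fun m F hF => ?_, cx_re' hU eU, fun R hR => ?_⟩
  · choose u u1 u2 using fun n => (eU n).elim fun _ h => cx_spec h
    rw [← card_image_of_injective F (f := u) fun a b h => Part.mem_unique (u2 a) (h ▸ u2 b)]
    refine card_short m _ fun p hp => ?_
    obtain ⟨n, hn, rfl⟩ := mem_image.1 hp
    exact u1 n ▸ hF n hn
  obtain ⟨N, h1, h2, h4, h3⟩ := re_bool hR
  let N' : (ℕ × ℕ) × Str → ℕ → Prop := fun p t => N (p.1.1, p.1.2, p.2) t = true
  obtain ⟨L, hL⟩ : ∃ L : ℕ × ℕ → ℕ → List Str, ∀ a t, L a t = en N' (· ≠ ·) a t := ⟨_, fun _ _ => rfl⟩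
  have h5 : Primrec fun p : (ℕ × ℕ) × ℕ => L p.1 p.2 := by
    simp only [hL]
    exact prim_en N' _ (pred (by fun_prop)) prim_ne
  obtain ⟨M, m1, m2⟩ := mach (R := fun (p x : Str) (t : ℕ) =>
    (L (hd p, (tl p).length) t)[val (tl p)]? = some x) (pred (by fun_prop))
    fun p n n' t t' a b => by
      rw [hL] at a b
      exact Option.some.inj ((en_get N' _ _ (le_max_left t t') a).1.symm.trans
        (en_get N' _ _ (le_max_right t t') b).1)
  obtain ⟨c, hc⟩ := oU M m1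
  refine ⟨c + 1, fun d l h x hx => ?_⟩
  obtain ⟨t, ht⟩ : ∃ t, x ∈ en N' (· ≠ ·) (d, l) t := by
    obtain ⟨t0, h0⟩ := h3 (d, l, x) hx
    obtain ⟨t, ht | ⟨y, h1, h2⟩⟩ := en_all N' (· ≠ ·) (d, l) x
      ((eventually_ge_atTop t0).mono fun t ht => h4 _ _ _ ht h0)
    exacts [⟨t, ht⟩, ⟨t, not_not.1 h2 ▸ h1⟩]
  obtain ⟨i, hi⟩ := List.getElem?_of_mem ht
  obtain ⟨a1, a2⟩ := en_inv N' (· ≠ ·) (d, l) t
  have := h (en N' (· ≠ ·) (d, l) t).toFinset fun m hm =>
    (a2 m (List.mem_toFinset.1 hm)).elim fun t ht => h2 _ _ ht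
  rw [List.toFinset_card_of_nodup a1] at this
  obtain ⟨p, rfl, rfl⟩ := val_surj l i ((List.getElem?_eq_some_iff.1 hi).1.trans_le this)
  obtain ⟨q, b1, b2⟩ := hc (mk d p) x ((m2 _ _).2 ⟨t, by rwa [hd_mk, tl_mk, hL]⟩)
  have := cx_le b2
  rw [len_mk] at b1
  omega

theorem pref {V : Str →. Str} (hV : Partrec V)
    (pf : ∀ p q : Str, (V p).Dom → (V q).Dom → p <+: q → p = q)
    (oV : ∀ M : Str →. Str, Partrec M → (∀ p q : Str, (M p).Dom → (M q).Dom → p <+: q → p = q) →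
      ∃ c : ℕ, ∀ p z, z ∈ M p → ∃ q : Str, q.length ≤ p.length + c ∧ z ∈ V q) : Pref (cx V) := by
  have k2 : ∀ R : Str → ℕ → Prop, REPred (fun p : Str × ℕ => R p.1 p.2) →
      (∀ F : Finset (Str × ℕ), (∀ p ∈ F, R p.1 p.2) → ∑ p ∈ F, (1 / 2 : ℝ) ^ p.2 ≤ 1) →
      ∃ c, ∀ x l, R x l → ∃ q : Str, q.length ≤ l + c ∧ x ∈ V q := by
    intro R h1 h2
    obtain ⟨M, m1, m2, m3⟩ := kc (fun n l => ∃ x, R x l ∧ Encodable.encode x = n) (re_exists (re_and
      (re_cmp h1 (fun x : (ℕ × ℕ) × Str => (x.2, x.1.2)) (by fun_prop)) (re_prim (by fun_prop)))) fun F hF => by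
        choose! x a1 a2 using hF
        have := h2 (F.image fun p => (x p, p.2)) (forall_mem_image.2 a1)
        rwa [sum_image (g := fun p : ℕ × ℕ => (x p, p.2)) fun p hp q hq h => Prod.ext (by
          rw [← a2 p hp, ← a2 q hq, show x p = x q from (Prod.ext_iff.1 h).1])
            (Prod.ext_iff.1 h).2] at this
    obtain ⟨c, hc⟩ := oV (fun p => (M p).map fun n => (Encodable.decode n).getD [])
      (m1.map (Computable.to₂ (f := fun p : Str × ℕ => (Encodable.decode p.2).getD [])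
        (by fun_prop))) m2
    refine ⟨1 + c, fun x l h => ?_⟩
    obtain ⟨p, a, b⟩ := m3 _ l ⟨x, h, rfl⟩
    rw [← add_assoc, ← a]
    exact hc p _ (by simpa using Part.mem_map (fun n => (Encodable.decode (α := Str) n).getD []) b)
  have eV : ∀ x, ∃ q, x ∈ V q := fun x => by
    obtain ⟨c, hc⟩ := k2 (fun m l => m = x ∧ l = 0) (re_prim (by fun_prop)) fun F hF => by
        simpa using sum_le_sum_of_subset_of_nonneg (f := fun p : Str × ℕ => (1 / 2 : ℝ) ^ p.2)
          (t := {(x, 0)}) (fun p hp => by simp [Prod.ext_iff, hF p hp]) fun _ _ _ => by positivity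
    exact (hc x 0 ⟨rfl, rfl⟩).imp fun _ h => h.2
  refine ⟨fun F => ?_, cx_re' hV eV, fun R h1 h2 => (k2 R h1 h2).imp fun c hc n l h =>
    (hc n l h).elim fun q b => (cx_le b.2).trans b.1⟩
  choose v v1 v2 using fun n => (eV n).elim fun _ h => cx_spec h
  have := kraft (F.image v) fun p hp q hq => by
    obtain ⟨a, -, rfl⟩ := mem_image.1 hp
    obtain ⟨b, -, rfl⟩ := mem_image.1 hq
    exact pf _ _ (v2 a).1 (v2 b).1
  rw [sum_image (g := v) fun a _ b _ h => Part.mem_unique (v2 a) (h ▸ v2 b)] at this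
  simpa only [v1] using this

theorem wsum {ι : Type} (F : Finset ι) (w : ι → ℝ) (g : ι → ℕ) (b : ℝ) (hb : 0 ≤ b)
    (h : ∀ j, ∑ p ∈ F with g p = j, w p ≤ b * (1 / 2) ^ (j + 1)) : ∑ p ∈ F, w p ≤ b := by
  rw [← sum_fiberwise_of_maps_to (g := g) fun p => mem_image_of_mem _]
  exact (sum_le_sum fun j _ => h j).trans ((mul_sum _ _ _).symm.trans_le
    (mul_le_of_le_one_right hb (geo _)))

/-- the first `n` bits -/
def pre (X : ℕ → Bool) (n : ℕ) : Str := List.ofFn fun i : Fin n => X i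

@[simp] theorem len_pre (X n) : (pre X n).length = n := List.length_ofFn

theorem take_pre (X) {n m : ℕ} (h : n ≤ m) : (pre X m).take n = pre X n := by
  refine List.ext_getElem (by simp [h]) fun i h1 h2 => ?_
  simp [pre]

theorem int_pre (μ : Measure (ℕ → Bool)) [IsFiniteMeasure μ] (n : ℕ) (g : Str → ℝ) :
    Integrable (fun X => g (pre X n)) μ ∧ ∫ X, g (pre X n) ∂μ =
      ∑ x : Fin n → Bool, μ.real {X | ∀ i : Fin n, X i = x i} * g (List.ofFn x) := by
  have h : Measurable fun (X : ℕ → Bool) (i : Fin n) => X i := by fun_prop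
  have h1 : Integrable (fun x : Fin n → Bool => g (List.ofFn x)) (μ.map fun X i => X i) :=
    .of_finite
  refine ⟨h1.comp_measurable h, (integral_map h.aemeasurable h1.1).symm.trans ?_⟩
  rw [integral_fintype h1]
  refine sum_congr rfl fun x _ => ?_
  rw [map_measureReal_apply h (measurableSet_singleton x), smul_eq_mul]
  congr 2
  ext X
  simp [funext_iff]

/-- optimal plain machine -/
def Opt (U : Str →. Str) : Prop := Partrec U ∧ ∀ M : Str →. Str, Partrec M →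
  ∃ c : ℕ, ∀ p z, z ∈ M p → ∃ q : Str, q.length ≤ p.length + c ∧ z ∈ U q

/-- the domain is an antichain -/
def PF (M : Str →. Str) : Prop := ∀ p q : Str, (M p).Dom → (M q).Dom → p <+: q → p = q

/-- optimal among the machines whose domain is an antichain -/
def OptPF (V : Str →. Str) : Prop := Partrec V ∧ PF V ∧ ∀ M : Str →. Str, Partrec M → PF M →
  ∃ c : ℕ, ∀ p z, z ∈ M p → ∃ q : Str, q.length ≤ p.length + c ∧ z ∈ V q

/-- the average of `g` over the strings of length `n` -/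
noncomputable def avg (μ : Measure (ℕ → Bool)) (g : Str → ℕ) (n : ℕ) : ℝ :=
  ∑ x : Fin n → Bool, μ.real {X | ∀ i : Fin n, X i = x i} * g (List.ofFn x)

theorem Opt.plain {U : Str →. Str} (h : Opt U) : Plain (cx U) := KAPI.plain h.1 h.2
theorem OptPF.pref {V : Str →. Str} (h : OptPF V) : Pref (cx V) := KAPI.pref h.1 h.2.1 h.2.2

theorem int_avg (μ : Measure (ℕ → Bool)) [IsFiniteMeasure μ] (g : Str → ℕ) (n : ℕ) :
    Integrable (fun X => (g (pre X n) : ℝ)) μ ∧ ∫ X, (g (pre X n) : ℝ) ∂μ = avg μ g n :=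
  int_pre μ n fun x => g x

theorem Plain.code' {C : Str → ℕ} (h : Plain C) (R : ℕ → Str → Prop)
    (hR : REPred fun p : ℕ × Str => R p.1 p.2)
    (hc : ∀ l (F : Finset Str), (∀ x ∈ F, R l x) → #F ≤ 2 ^ l) : ∃ c, ∀ l x, R l x → C x ≤ l + c :=
  (h.code (fun _ => R) (re_cmp hR (fun p : ℕ × ℕ × Str => p.2) (by fun_prop))).imp fun _ h l x hx =>
    h 0 l (hc l) x hx

end Pool.Agent.Lib.KAPI
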