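import Mathlib

set_option autoImplicit false

namespace Pool.Agent.H13.Golod

variable (F : Type) [Field F]

abbrev T := FreeAlgebra F (Fin 3)

/-- augmentation -/
noncomputable def eps : T F →ₐ[F] F := FreeAlgebra.lift F (fun _ => 0)

noncomputable def Phi (i : Fin 3) : T F →ₐ[F] Matrix (Fin 2) (Fin 2) (T F) :=
  FreeAlgebra.lift F (fun j => !![FreeAlgebra.ι F j, if j = i then 1 else 0; 0, 0])

/-- Fox derivative -/
noncomputable def D (i : Fin 3) : T F →ₗ[F] T F :=
  (Matrix.entryLinearMap F (T F) 0 1) ∘ₗ (Phi F i).toLinearMap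

variable {F}

lemma Phi_entries (i : Fin 3) (u : T F) :
    Phi F i u 0 0 = u ∧ Phi F i u 1 0 = 0 ∧ Phi F i u 1 1 = algebraMap F (T F) (eps F u) := by
  induction u using FreeAlgebra.induction with
  | grade0 r =>
    rw [AlgHom.commutes, AlgHom.commutes]
    simp [Matrix.algebraMap_matrix_apply]
  | grade1 j => simp [Phi, eps]
  | mul a b ha hb =>
    rw [map_mul, map_mul]
    simp [Matrix.mul_apply, Fin.sum_univ_two, ha.1, ha.2.1, ha.2.2, hb.1, hb.2.1, hb.2.2]
  | add a b ha hb =>
    rw [map_add, map_add]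
    simp [ha.1, ha.2.1, ha.2.2, hb.1, hb.2.1, hb.2.2]

lemma D_mul (i : Fin 3) (u v : T F) : D F i (u * v) = u * D F i v + eps F v • D F i u := by
  show Phi F i (u * v) 0 1 = u * Phi F i v 0 1 + eps F v • Phi F i u 0 1
  rw [map_mul, Matrix.mul_apply, Fin.sum_univ_two, (Phi_entries i u).1, (Phi_entries i v).2.2,
    Algebra.smul_def, Algebra.commutes]

lemma D_x (i j : Fin 3) : D F i (FreeAlgebra.ι F j) = if j = i then 1 else 0 := by
  show Phi F i (FreeAlgebra.ι F j) 0 1 = _
  simp [Phi]

lemma eps_x (j : Fin 3) : eps F (FreeAlgebra.ι F j) = 0 := by simp [eps]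

variable (F) in
/-- powers of the augmentation ideal -/
noncomputable def J : ℕ → Submodule F (T F)
  | 0 => ⊤
  | n + 1 => LinearMap.ker (eps F).toLinearMap ⊓ ⨅ i, (J n).comap (D F i)

lemma mem_J_succ {n : ℕ} {u : T F} : u ∈ J F (n + 1) ↔ eps F u = 0 ∧ ∀ i, D F i u ∈ J F n := by
  simp [J, Submodule.mem_iInf]

lemma J_succ_le (n : ℕ) : J F (n + 1) ≤ J F n := by
  induction n with
  | zero => exact le_top
  | succ n ih =>
    intro u hu
    rw [mem_J_succ] at hu ⊢
    exact ⟨hu.1, fun i => ih (hu.2 i)⟩

lemma J_anti {m n : ℕ} (h : m ≤ n) : J F n ≤ J F m := by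
  induction h with
  | refl => exact le_rfl
  | step _ ih => exact (J_succ_le _).trans ih

lemma J_mul_right (n : ℕ) : ∀ u ∈ J F n, ∀ v, u * v ∈ J F n := by
  induction n with
  | zero => intro u _ v; exact Submodule.mem_top
  | succ n ih =>
    intro u hu v
    have hu' := J_succ_le n hu
    rw [mem_J_succ] at hu ⊢
    refine ⟨by rw [map_mul, hu.1, zero_mul], fun i => ?_⟩
    rw [D_mul]
    exact Submodule.add_mem _ (ih u hu' _) (Submodule.smul_mem _ _ (hu.2 i))

lemma J_mul (a b : ℕ) : ∀ u ∈ J F a, ∀ v ∈ J F b, u * v ∈ J F (a + b) := by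
  induction b with
  | zero => intro u hu v _; exact J_mul_right a u hu v
  | succ b ih =>
    intro u hu v hv
    rw [← add_assoc]
    rw [mem_J_succ] at hv ⊢
    refine ⟨by rw [map_mul, hv.1, mul_zero], fun i => ?_⟩
    rw [D_mul, hv.1, zero_smul, add_zero]
    exact ih u hu _ (hv.2 i)

lemma J_mul_left (n : ℕ) (u : T F) {v : T F} (hv : v ∈ J F n) : u * v ∈ J F n := by
  have := J_mul 0 n u Submodule.mem_top v hv
  rwa [zero_add] at this

lemma pow_mem_J {w : T F} (hw : eps F w = 0) (n : ℕ) : w ^ n ∈ J F n := by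
  induction n with
  | zero => exact Submodule.mem_top
  | succ n ih =>
    rw [pow_succ]
    exact J_mul n 1 _ ih _ (mem_J_succ.2 ⟨hw, fun _ => Submodule.mem_top⟩)

section GS
variable (f : ℕ → T F)

/-- the two-sided ideal generated by the relations, as a left ideal -/
def I : Submodule (T F) (T F) := Submodule.span (T F) {z | ∃ j b, z = f j * b}

lemma I_mul_right {z : T F} (hz : z ∈ I f) (v : T F) : z * v ∈ I f := by
  induction hz using Submodule.span_induction with
  | mem z hz =>
    obtain ⟨j, b, rfl⟩ := hz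
    exact Submodule.subset_span ⟨j, b * v, mul_assoc _ _ _⟩
  | zero => rw [zero_mul]; exact Submodule.zero_mem _
  | add a b _ _ ha hb => rw [add_mul]; exact Submodule.add_mem _ ha hb
  | smul a z _ hz => rw [smul_eq_mul, mul_assoc]; exact Submodule.smul_mem _ a hz

noncomputable def K (n : ℕ) : Submodule F (T F) := (I f).restrictScalars F ⊔ J F n

abbrev Q (n : ℕ) := T F ⧸ K f n

noncomputable def Dbar (n : ℕ) : T F →ₗ[F] (Fin 3 → Q f n) :=
  LinearMap.pi fun i => (K f n).mkQ ∘ₗ D F i

lemma Dbar_surj (n : ℕ) : Function.Surjective (Dbar f n) := by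
  intro q
  choose u hu using fun i => (K f n).mkQ_surjective (q i)
  refine ⟨∑ j, u j * FreeAlgebra.ι F j, ?_⟩
  funext i
  show (K f n).mkQ (D F i _) = _
  rw [map_sum, ← hu i]
  congr 1
  simp [D_mul, D_x, eps_x]

variable (hf : ∀ j, f j ∈ J F (j + 2))
include hf

noncomputable def phi (n : ℕ) (j : Fin n) : Q f (n - 1 - j) →ₗ[F] (Fin 3 → Q f n) :=
  LinearMap.pi fun i => Submodule.mapQ _ _ (LinearMap.mulRight F (D F i (f j))) (by
    refine sup_le ?_ ?_
    · intro z hz
      exact Submodule.mem_sup_left (I_mul_right f hz _)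
    · intro z hz
      have h1 := J_mul _ _ z hz _ ((mem_J_succ.1 (hf j)).2 i)
      have : n - 1 - j + (j + 1) = n := by have := j.2; omega
      rw [this] at h1
      exact Submodule.mem_sup_right h1)

noncomputable def Sub (n : ℕ) : Submodule F (Fin 3 → Q f n) :=
  LinearMap.range (LinearMap.lsum F (fun j : Fin n => Q f (n - 1 - j)) F (phi f hf n))

lemma Dbar_K (n : ℕ) : ∀ z ∈ K f (n + 1), Dbar f n z ∈ Sub f hf n := by
  have key : ∀ z ∈ I f, ∀ a, Dbar f n (a * z) ∈ Sub f hf n := by
    intro z hz
    induction hz using Submodule.span_induction with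
    | mem z hz =>
      obtain ⟨j, b, rfl⟩ := hz
      intro a
      have e1 : Dbar f n (a * (f j * b)) = eps F b • Dbar f n (a * f j) := by
        funext i
        show (K f n).mkQ (D F i _) = eps F b • (K f n).mkQ (D F i _)
        rw [← mul_assoc, D_mul, map_add, map_smul]
        have : (K f n).mkQ (a * f j * D F i b) = 0 := by
          rw [Submodule.mkQ_apply, Submodule.Quotient.mk_eq_zero, mul_assoc]
          exact Submodule.mem_sup_left
            ((I f).smul_mem a (Submodule.subset_span ⟨j, _, rfl⟩))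
        rw [this, zero_add]
      rw [e1]
      refine Submodule.smul_mem _ _ ?_
      have e2 : ∀ i, D F i (a * f j) = a * D F i (f j) := fun i => by
        rw [D_mul, (mem_J_succ.1 (hf j)).1, zero_smul, add_zero]
      by_cases hj : j < n
      · refine ⟨Pi.single (M := fun j : Fin n => Q f (n - 1 - j)) ⟨j, hj⟩
          (Submodule.Quotient.mk a), ?_⟩
        rw [LinearMap.lsum_piSingle]
        funext i
        show _ = (K f n).mkQ (D F i _)
        rw [e2]
        rfl
      · have : Dbar f n (a * f j) = 0 := by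
          funext i
          show (K f n).mkQ (D F i _) = 0
          rw [e2, Submodule.mkQ_apply, Submodule.Quotient.mk_eq_zero]
          exact Submodule.mem_sup_right
            (J_anti (by omega) (J_mul_left _ a ((mem_J_succ.1 (hf j)).2 i)))
        rw [this]; exact Submodule.zero_mem _
    | zero => intro a; rw [mul_zero, map_zero]; exact Submodule.zero_mem _
    | add u v _ _ hu hv => intro a; rw [mul_add, map_add]; exact Submodule.add_mem _ (hu a) (hv a)
    | smul c z _ hz => intro a; rw [smul_eq_mul, ← mul_assoc]; exact hz _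
  intro z hz
  obtain ⟨y, hy, w, hw, rfl⟩ := Submodule.mem_sup.1 hz
  rw [map_add]
  refine Submodule.add_mem _ (by simpa using key y hy 1) ?_
  have : Dbar f n w = 0 := by
    funext i
    show (K f n).mkQ (D F i _) = 0
    rw [Submodule.mkQ_apply, Submodule.Quotient.mk_eq_zero]
    exact Submodule.mem_sup_right ((mem_J_succ.1 hw).2 i)
  rw [this]; exact Submodule.zero_mem _

lemma gs_ineq (hfin : ∀ n, Module.Finite F (Q f n)) (n : ℕ) :
    3 * Module.finrank F (Q f n) ≤
      Module.finrank F (Q f (n + 1)) + ∑ k ∈ Finset.range n, Module.finrank F (Q f k) := by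
  have h1 := (Sub f hf n).finrank_quotient_add_finrank
  rw [Module.finrank_pi_fintype] at h1
  simp only [Finset.sum_const, Finset.card_univ, Fintype.card_fin, smul_eq_mul] at h1
  have h2 : Module.finrank F (Sub f hf n) ≤ ∑ k ∈ Finset.range n, Module.finrank F (Q f k) := by
    refine (LinearMap.finrank_range_le _).trans ?_
    rw [Module.finrank_pi_fintype, ← Finset.sum_range_reflect,
      Fin.sum_univ_eq_sum_range (fun j => Module.finrank F (Q f (n - 1 - j)))]
  have h3 : Module.finrank F ((Fin 3 → Q f n) ⧸ Sub f hf n) ≤ Module.finrank F (Q f (n + 1)) := by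
    let g : Q f (n + 1) →ₗ[F] (Fin 3 → Q f n) ⧸ Sub f hf n :=
      Submodule.mapQ _ _ (Dbar f n) (fun z hz => Dbar_K f hf n z hz)
    refine LinearMap.finrank_le_finrank_of_surjective (f := g) ?_
    intro q
    obtain ⟨p, rfl⟩ := (Sub f hf n).mkQ_surjective q
    obtain ⟨u, rfl⟩ := Dbar_surj f n p
    exact ⟨Submodule.Quotient.mk u, rfl⟩
  omega

/-- Golod–Shafarevich: one relation in each degree at least two, three generators. -/
theorem not_finite : ¬ Module.Finite F (T F ⧸ I f) := by
  intro hfin
  let g : ∀ n, (T F ⧸ I f) →ₗ[F] Q f n := fun n =>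
    (Submodule.mapQ _ _ LinearMap.id (le_sup_left : (I f).restrictScalars F ≤ K f n)) ∘ₗ
      (Submodule.Quotient.restrictScalarsEquiv F (I f)).symm.toLinearMap
  have hg : ∀ n, Function.Surjective (g n) := by
    intro n q
    obtain ⟨u, rfl⟩ := (K f n).mkQ_surjective q
    exact ⟨Submodule.Quotient.mk u, rfl⟩
  have hQ : ∀ n, Module.Finite F (Q f n) := fun n => Module.Finite.of_surjective (g n) (hg n)
  have hb : ∀ n, Module.finrank F (Q f n) ≤ Module.finrank F (T F ⧸ I f) := fun n =>
    LinearMap.finrank_le_finrank_of_surjective (hg n)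
  have hP : ∀ n, ∑ k ∈ Finset.range n, Module.finrank F (Q f k) ≤ Module.finrank F (Q f n) := by
    intro n
    induction n with
    | zero => simp
    | succ n ih =>
      have := gs_ineq f hf hQ n
      rw [Finset.sum_range_succ]
      omega
  have h1 : 0 < Module.finrank F (Q f 1) := by
    have : Nontrivial (Q f 1) := by
      refine Submodule.Quotient.nontrivial_iff.2 ?_
      intro h
      have hle : K f 1 ≤ LinearMap.ker (eps F).toLinearMap := by
        refine sup_le ?_ (fun z hz => (mem_J_succ.1 hz).1)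
        intro z hz
        have hz' : z ∈ I f := hz
        clear hz
        show eps F z = 0
        induction hz' using Submodule.span_induction with
        | mem z hz =>
          obtain ⟨j, b, rfl⟩ := hz
          rw [map_mul, (mem_J_succ.1 (hf j)).1, zero_mul]
        | zero => exact map_zero _
        | add u v _ _ hu hv => rw [map_add, hu, hv, add_zero]
        | smul c z _ hz => rw [smul_eq_mul, map_mul, hz, mul_zero]
      have : eps F 1 = 0 := hle (h ▸ Submodule.mem_top)
      simp at this
    exact Module.finrank_pos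
  have h2 : ∀ n, n + 1 ≤ Module.finrank F (Q f (n + 1)) := by
    intro n
    induction n with
    | zero => exact h1
    | succ n ih =>
      have := gs_ineq f hf hQ (n + 1)
      have := hP (n + 1)
      omega
  have := h2 (Module.finrank F (T F ⧸ I f))
  have := hb (Module.finrank F (T F ⧸ I f) + 1)
  omega

end GS

instance countable_free [Countable F] (X : Type) [Countable X] : Countable (FreeAlgebra F X) := by
  have : Countable (FreeMonoid X) := inferInstanceAs (Countable (List X))
  exact (FreeAlgebra.basisFreeMonoid F X).repr.toEquiv.injective.countable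

/-- Golod: an infinite-dimensional cyclic module on which the augmentation ideal acts by
nilpotent operators. -/
theorem golod [Countable F] : ∃ (M : Type) (_ : AddCommGroup M) (_ : Module F M)
    (L : T F →ₐ[F] Module.End F M) (e : M), ¬ Module.Finite F M ∧ (∀ m, ∃ u, L u e = m) ∧
      ∀ u, eps F u = 0 → IsNilpotent (L u) := by
  have : Nonempty {u : T F // eps F u = 0} := ⟨⟨0, map_zero _⟩⟩
  obtain ⟨w, hw⟩ := exists_surjective_nat {u : T F // eps F u = 0}
  let f : ℕ → T F := fun j => (w j).1 ^ (j + 2)
  have hf : ∀ j, f j ∈ J F (j + 2) := fun j => pow_mem_J (w j).2 _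
  refine ⟨T F ⧸ I f, inferInstance, inferInstance, Algebra.lsmul F F (T F ⧸ I f),
    Submodule.Quotient.mk 1, not_finite f hf, ?_, ?_⟩
  · intro m
    obtain ⟨u, rfl⟩ := (I f).mkQ_surjective m
    refine ⟨u, ?_⟩
    rw [Algebra.lsmul_coe, Submodule.mkQ_apply]
    dsimp only
    rw [← Submodule.Quotient.mk_smul, smul_eq_mul, mul_one]
  · intro u hu
    obtain ⟨j, hj⟩ := hw ⟨u, hu⟩
    refine ⟨j + 2, ?_⟩
    rw [← map_pow]
    refine LinearMap.ext fun m => ?_
    obtain ⟨v, rfl⟩ := (I f).mkQ_surjective m
    rw [Algebra.lsmul_coe, Submodule.mkQ_apply, LinearMap.zero_apply]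
    dsimp only
    rw [← Submodule.Quotient.mk_smul, Submodule.Quotient.mk_eq_zero]
    exact Submodule.subset_span ⟨j, v, by simp [f, hj]⟩

end Pool.Agent.H13.Golod
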