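import Mathlib

set_option autoImplicit false

/-! Bergman's diamond lemma for rewriting systems whose left-hand sides have length two. -/

namespace Pool.Agent.Lib.helper13.Diamond

open Submodule

variable {k A L ι : Type} [Field k] [Ring A] [Algebra k A]

/-- span of the monomials below `m` -/
def Low (B : List L → A) (lt : List L → List L → Prop) (m : List L) : Submodule k A :=
  span k {t | ∃ m', lt m' m ∧ t = B m'}

/-- span of the relations in context whose leading monomial is below `m` -/
def J (B : List L → A) (lt : List L → List L → Prop) (x y : ι → L) (rel : ι → A) (m : List L) :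
    Submodule k A :=
  span k {t | ∃ a ρ b, lt (a ++ x ρ :: y ρ :: b) m ∧ t = B a * rel ρ * B b}

variable {lt : List L → List L → Prop} {x y : ι → L} {rel : ι → A}

section
variable {B : List L → A} (hB : ∀ l l', B (l ++ l') = B l * B l')
  (ctx : ∀ a b m m', lt m m' → lt (a ++ m ++ b) (a ++ m' ++ b))
include hB ctx

lemma Low_ctx {m : List L} {t : A} (h : t ∈ Low (k := k) B lt m) (a b : List L) :
    B a * t * B b ∈ Low (k := k) B lt (a ++ m ++ b) := by
  induction h using span_induction with
  | mem t h =>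
    obtain ⟨m', h, rfl⟩ := h
    exact subset_span ⟨_, ctx a b _ _ h, by rw [hB, hB]⟩
  | zero => simp
  | add _ _ _ _ h h' => simpa [mul_add, add_mul] using add_mem h h'
  | smul c _ _ h => simpa using smul_mem _ c h

lemma J_ctx {m : List L} {t : A} (h : t ∈ J (k := k) B lt x y rel m) (a b : List L) :
    B a * t * B b ∈ J (k := k) B lt x y rel (a ++ m ++ b) := by
  induction h using span_induction with
  | mem t h =>
    obtain ⟨a', ρ, b', h, rfl⟩ := h
    exact subset_span ⟨a ++ a', ρ, b' ++ b, by simpa using ctx a b _ _ h, by simp [hB, mul_assoc]⟩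
  | zero => simp
  | add _ _ _ _ h h' => simpa [mul_add, add_mul] using add_mem h h'
  | smul c _ _ h => simpa using smul_mem _ c h

lemma J_left {m : List L} {t : A} (h : t ∈ Low (k := k) B lt m) (a : List L) (ρ : ι) (b : List L) :
    B a * rel ρ * t * B b ∈ J (k := k) B lt x y rel (a ++ x ρ :: y ρ :: m ++ b) := by
  induction h using span_induction with
  | mem t h =>
    obtain ⟨m', h, rfl⟩ := h
    exact subset_span ⟨a, ρ, m' ++ b, by simpa using ctx (a ++ [x ρ, y ρ]) b _ _ h,
      by simp [hB, mul_assoc]⟩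
  | zero => simp
  | add _ _ _ _ h h' => simpa [mul_add, add_mul] using add_mem h h'
  | smul c _ _ h => simpa using smul_mem _ c h

lemma J_right {m : List L} {t : A} (h : t ∈ Low (k := k) B lt m) (a : List L) (ρ : ι) (b : List L) :
    B a * t * rel ρ * B b ∈ J (k := k) B lt x y rel (a ++ m ++ x ρ :: y ρ :: b) := by
  induction h using span_induction with
  | mem t h =>
    obtain ⟨m', h, rfl⟩ := h
    exact subset_span ⟨a ++ m', ρ, b, ctx a _ _ _ h, by simp [hB, mul_assoc]⟩
  | zero => simp
  | add _ _ _ _ h h' => simpa [mul_add, add_mul] using add_mem h h'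
  | smul c _ _ h => simpa using smul_mem _ c h

end

theorem diamond (B : Module.Basis (List L) k A) (hB : ∀ l l', B (l ++ l') = B l * B l')
    (wf : WellFounded lt) (ctx : ∀ a b m m', lt m m' → lt (a ++ m ++ b) (a ++ m' ++ b))
    (h1 : ∀ ρ, B [x ρ, y ρ] - rel ρ ∈ Low (k := k) B lt [x ρ, y ρ])
    (h2 : ∀ ρ ρ', x ρ = x ρ' → y ρ = y ρ' → ρ = ρ')
    (h3 : ∀ ρ ρ', y ρ = x ρ' → rel ρ * B [y ρ'] - B [x ρ] * rel ρ' ∈
      J (k := k) B lt x y rel [x ρ, y ρ, y ρ'])
    (m0 : List L) (h0 : ∀ a ρ b, m0 ≠ a ++ x ρ :: y ρ :: b) :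
    ∃ φ : A →ₗ[k] k, φ (B m0) = 1 ∧ ∀ a ρ b, φ (a * rel ρ * b) = 0 := by
  classical
  let F : (m : List L) → ((m' : List L) → lt m' m → k) → k := fun m rec =>
    if h : ∃ q : List L × ι × List L, m = q.1 ++ x q.2.1 :: y q.2.1 :: q.2.2 then
      B.constr k (fun m' => if h' : lt m' m then rec m' h' else 0)
        (B m - B h.choose.1 * rel h.choose.2.1 * B h.choose.2.2)
    else if m = m0 then 1 else 0
  let ψ : List L → k := wf.fix F
  have hψ : ∀ m, ψ m = F m fun m' _ => ψ m' := wf.fix_eq F
  have hl : ∀ a ρ b, B (a ++ x ρ :: y ρ :: b) - B a * rel ρ * B b ∈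
      Low (k := k) B lt (a ++ x ρ :: y ρ :: b) := fun a ρ b => by
    simpa [mul_sub, sub_mul, ← hB] using Low_ctx hB ctx (h1 ρ) a b
  have key : ∀ a ρ b a' ρ' b' c, a' = a ++ c → x ρ :: y ρ :: b = c ++ x ρ' :: y ρ' :: b' →
      B a * rel ρ * B b - B a' * rel ρ' * B b' ∈
        J (k := k) B lt x y rel (a ++ x ρ :: y ρ :: b) := by
    rintro a ρ b _ ρ' b' (_ | ⟨c1, _ | ⟨c2, c⟩⟩) rfl h
    · simp only [List.nil_append, List.cons.injEq] at h
      obtain rfl := h2 _ _ h.1 h.2.1
      simp [h.2.2]
    · simp only [List.cons_append, List.nil_append, List.cons.injEq] at h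
      obtain ⟨rfl, e, rfl⟩ := h
      have := J_ctx hB ctx (h3 _ _ e) a b'
      rw [show y ρ' :: b' = [y ρ'] ++ b' from rfl, hB, hB]
      simpa [mul_sub, sub_mul, mul_assoc] using this
    · simp only [List.cons_append, List.cons.injEq] at h
      obtain ⟨rfl, rfl, rfl⟩ := h
      have k1 := J_left (x := x) (y := y) (rel := rel) hB ctx (Low_ctx hB ctx (h1 ρ') c []) a ρ b'
      have k2 := J_right (x := x) (y := y) (rel := rel) hB ctx (Low_ctx hB ctx (h1 ρ) [] c) a ρ' b'
      have e : B [] = 1 := by
        have : ∀ t : A, B [] * t = t := fun t => by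
          have : LinearMap.mulLeft k (B []) = LinearMap.id := B.ext fun l => (hB [] l).symm
          exact LinearMap.congr_fun this t
        simpa using this 1
      simp only [e, mul_one, one_mul, List.append_nil, List.nil_append, List.append_assoc,
        List.cons_append] at k1 k2
      rw [show x ρ :: y ρ :: c = [x ρ, y ρ] ++ c from rfl,
        show x ρ' :: y ρ' :: b' = [x ρ', y ρ'] ++ b' from rfl]
      simp only [hB]
      convert sub_mem k1 k2 using 1
      · rfl
      simp only [mul_sub, sub_mul, mul_assoc]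
      abel
  have main : ∀ m a ρ b, m = a ++ x ρ :: y ρ :: b → B.constr k ψ (B a * rel ρ * B b) = 0 := by
    intro m
    induction m using wf.induction with
    | _ m ih =>
      intro a ρ b e
      have h : ∃ q : List L × ι × List L, m = q.1 ++ x q.2.1 :: y q.2.1 :: q.2.2 := ⟨(a, ρ, b), e⟩
      have e' := h.choose_spec
      have k1 : J (k := k) B lt x y rel m ≤ LinearMap.ker (B.constr k ψ) := span_le.2 <| by
        rintro _ ⟨a, ρ, b, h, rfl⟩
        exact ih _ h a ρ b rfl
      have k2 : B.constr k ψ (B m - B h.choose.1 * rel h.choose.2.1 * B h.choose.2.2) = ψ m := by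
        rw [hψ m]
        simp only [F, dif_pos h]
        refine LinearMap.eqOn_span' ?_ (show _ ∈ Low (k := k) B lt m by
          convert hl h.choose.1 h.choose.2.1 h.choose.2.2)
        rintro _ ⟨m', h', rfl⟩
        simp [h']
      rw [map_sub, B.constr_basis, sub_eq_self] at k2
      rcases List.append_eq_append_iff.1 (e.symm.trans e') with ⟨c, c1, c2⟩ | ⟨c, c1, c2⟩
      · have := key _ _ _ _ _ _ c c1 c2
        rw [← e] at this
        simpa [k2] using k1 this
      · have := key _ _ _ _ _ _ c c1 c2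
        rw [← e'] at this
        simpa [k2] using k1 this
  refine ⟨B.constr k ψ, ?_, fun a ρ b => ?_⟩
  · rw [B.constr_basis, hψ]
    simp only [F]
    rw [dif_neg fun ⟨q, hq⟩ => h0 _ _ _ hq, if_pos trivial]
  · have : ((LinearMap.mul k A).compl₁₂ (LinearMap.mulRight k (rel ρ)) LinearMap.id).compr₂
        (B.constr k ψ) = 0 := LinearMap.ext_basis B B fun a b => main _ a ρ b rfl
    exact LinearMap.congr_fun₂ this a b

end Pool.Agent.Lib.helper13.Diamond
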