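import Mathlib

set_option autoImplicit false
set_option linter.style.haveILetI false

namespace Pool.Agent.Lib.helper13.Trans

open Cardinal

universe u

/-- Transfinite construction of length `#ι`: states live in a complete lattice, each step adds
finitely many points to the size set, so every intermediate state has size `< #ι`. -/
theorem recur {ι V : Type u} [Infinite ι] {S : Type*} [CompleteLattice S] (sz : S → Set V)
    (hsz : ∀ (J : Type u) (f : J → S), sz (⨆ j, f j) ⊆ ⋃ j, sz (f j)) (G : S → Prop)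
    (hG : ∀ (J : Type u) (f : J → S), Directed (· ≤ ·) f → (∀ j, G (f j)) → G (⨆ j, f j))
    (T : ι → S → Prop)
    (step : ∀ σ i, G σ → #(sz σ) < #ι → ∃ τ, σ ≤ τ ∧ (sz τ \ sz σ).Finite ∧ G τ ∧ T i τ) :
    ∃ σ, G σ ∧ ∀ i, ∃ τ ≤ σ, T i τ := by
  obtain ⟨_, _, ho⟩ := exists_ord_eq_type_lt ι
  have : ∀ σ i, ∃ τ, σ ≤ τ ∧ (sz τ \ sz σ).Finite ∧ (G σ → #(sz σ) < #ι → G τ ∧ T i τ) := by
    intro σ i
    by_cases h : G σ ∧ #(sz σ) < #ι
    · obtain ⟨τ, h1, h2, h3⟩ := step σ i h.1 h.2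
      exact ⟨τ, h1, h2, fun _ _ => h3⟩
    · exact ⟨σ, le_rfl, by simp, fun h1 h2 => absurd ⟨h1, h2⟩ h⟩
  choose nx n1 n2 n3 using this
  let F : ι → S := (wellFounded_lt (α := ι)).fix fun i rec => nx (⨆ j : Set.Iio i, rec j.1 j.2) i
  let P : ι → S := fun i => ⨆ j : Set.Iio i, F j.1
  have hF : ∀ i, F i = nx (P i) i := fun i => WellFounded.fix_eq _ _ i
  have mono : Monotone F := monotone_iff_forall_lt.2 fun j i h =>
    (le_iSup (fun j : Set.Iio i => F j.1) ⟨j, h⟩).trans (hF i ▸ n1 _ i)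
  have hs : ∀ i, sz (P i) ⊆ ⋃ j : Set.Iio i, (sz (F j.1) \ sz (P j.1)) := fun i => by
    induction i using WellFoundedLT.induction with
    | ind i ih =>
      intro x hx
      obtain ⟨j, hj⟩ := Set.mem_iUnion.1 (hsz _ _ hx)
      by_cases h : x ∈ sz (P j.1)
      · obtain ⟨k, hk⟩ := Set.mem_iUnion.1 (ih j.1 j.2 h)
        exact Set.mem_iUnion.2 ⟨⟨k.1, lt_trans k.2 j.2⟩, hk⟩
      · exact Set.mem_iUnion.2 ⟨j, hj, h⟩
  have hc : ∀ i, #(sz (P i)) < #ι := fun i => by
    refine (mk_le_mk_of_subset (hs i)).trans_lt ?_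
    have hf : ∀ j : Set.Iio i, (sz (F j.1) \ sz (P j.1)).Finite := fun j => hF j.1 ▸ n2 _ _
    rcases finite_or_infinite (Set.Iio i) with h | h
    · exact (Set.finite_iUnion hf).lt_aleph0.trans_le (aleph0_le_mk ι)
    · refine (mk_iUnion_le _).trans_lt (lt_of_le_of_lt ?_ (mk_Iio_lt i ho))
      exact (mul_le_mul_right (ciSup_le' fun j => (hf j).lt_aleph0.le) _).trans (mul_aleph0_eq
        (aleph0_le_mk _)).le
  have hg : ∀ i, G (F i) ∧ T i (F i) := fun i => by
    induction i using WellFoundedLT.induction with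
    | ind i ih =>
      rw [hF]
      exact n3 _ _ (hG _ _ (Monotone.directed_le fun j k h => mono h) fun j => (ih j.1 j.2).1)
        (hc i)
  exact ⟨⨆ i, F i, hG _ _ mono.directed_le fun i => (hg i).1, fun i => ⟨_, le_iSup F i, (hg i).2⟩⟩

end Pool.Agent.Lib.helper13.Trans
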