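import Mathlib

set_option autoImplicit false

namespace Pool.Agent.Lib.helper13.VN

open Set Filter Topology NormedSpace
open scoped ContDiff

variable {A : Type} [NormedRing A] [NormedAlgebra ℝ A] [CompleteSpace A]

lemma eadd {x y : A} (h : Commute x y) : exp (x + y) = exp x * exp y := by
  letI := NormedAlgebra.restrictScalars ℚ ℝ A
  exact exp_add_of_commute h

lemma ensmul (n : ℕ) (x : A) : exp (n • x) = exp x ^ n := by
  letI := NormedAlgebra.restrictScalars ℚ ℝ A
  exact exp_nsmul n x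

@[fun_prop] lemma econt : Continuous (exp : A → A) := by
  letI := NormedAlgebra.restrictScalars ℚ ℝ A
  exact exp_continuous

lemma eneg (x : A) : exp x * exp (-x) = 1 := by
  rw [← eadd (Commute.refl x).neg_right, add_neg_cancel, exp_zero]

lemma eneg' (x : A) : exp (-x) * exp x = 1 := by simpa using eneg (-x)

lemma econj {u v : A} (h1 : u * v = 1) (h2 : v * u = 1) (x : A) :
    exp (u * x * v) = u * exp x * v := by
  letI := NormedAlgebra.restrictScalars ℚ ℝ A
  exact exp_units_conj ⟨u, v, h1, h2⟩ x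

lemma ean (x : A) : AnalyticAt ℝ (exp : A → A) x := exp_analytic x

lemma esd : HasStrictFDerivAt (exp : A → A)
    ((ContinuousLinearEquiv.refl ℝ A : A ≃L[ℝ] A) : A →L[ℝ] A) 0 := hasStrictFDerivAt_exp_zero

/-- local logarithm -/
noncomputable def lg : A → A := esd.localInverse _ _ _

lemma lg_exp : ∀ᶠ x in 𝓝 (0 : A), lg (exp x) = x := esd.eventually_left_inverse

lemma exp_lg : ∀ᶠ y in 𝓝 (1 : A), exp (lg y) = y := by
  simpa [lg] using (esd (A := A)).eventually_right_inverse

lemma lg_one : lg (1 : A) = 0 := by simpa using (lg_exp (A := A)).self_of_nhds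

lemma lg_an : AnalyticAt ℝ (lg : A → A) 1 := by
  have := ((ean (0 : A)).contDiffAt (n := ω)).to_localInverse (f' := ContinuousLinearEquiv.refl ℝ A)
    esd.hasFDerivAt (by simp)
  rw [exp_zero] at this
  exact this.analyticAt

lemma lg_sd : HasStrictFDerivAt (lg : A → A) (ContinuousLinearMap.id ℝ A) 1 := by
  simpa [lg] using (esd (A := A)).to_localInverse

lemma lg_t : Tendsto (lg : A → A) (𝓝 1) (𝓝 0) := by
  simpa [lg_one] using (lg_sd (A := A)).continuousAt.tendsto

lemma sexp {E : Type} [NormedAddCommGroup E] [NormedSpace ℝ E] {f : E → A} {f' : E →L[ℝ] A}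
    {a : E} (h : HasStrictFDerivAt f f' a) (h0 : f a = 0) :
    HasStrictFDerivAt (fun x => exp (f x)) f' a := by
  have := esd (A := A)
  rw [← h0] at this
  exact this.comp a h

lemma slg {E : Type} [NormedAddCommGroup E] [NormedSpace ℝ E] {f : E → A} {f' : E →L[ℝ] A}
    {a : E} (h : HasStrictFDerivAt f f' a) (h0 : f a = 1) :
    HasStrictFDerivAt (fun x => lg (f x)) f' a := by
  have := lg_sd (A := A)
  rw [← h0] at this
  exact this.comp a h

lemma ed0 (X : A) : HasStrictDerivAt (fun t : ℝ => exp (t • X)) X 0 := by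
  simpa using hasStrictDerivAt_exp_smul_const (𝕂 := ℝ) X 0

lemma eq0 {X : A} (h : ∀ t : ℝ, exp (t • X) = 1) : X = 0 :=
  (ed0 X).hasDerivAt.unique (by simpa [h] using hasDerivAt_const (0 : ℝ) (1 : A))

lemma comm_of {X Y : A} (h : ∀ t : ℝ, Commute (exp (t • X)) Y) : Commute X Y := by
  have a := (ed0 X).hasDerivAt.mul_const Y
  have b := (ed0 X).hasDerivAt.const_mul Y
  simp only [fun t => (h t).eq] at a
  exact a.unique b

/-- closed subgroups of the unit group, seen inside the algebra -/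
structure CG (H : Set A) : Prop where
  one : (1 : A) ∈ H
  mul : ∀ x ∈ H, ∀ y ∈ H, x * y ∈ H
  inv : ∀ x ∈ H, ∃ y ∈ H, x * y = 1
  cl : IsClosed H

variable {H : Set A}

omit [NormedAlgebra ℝ A] [CompleteSpace A] in
lemma CG.pow (h : CG H) {x : A} (hx : x ∈ H) (n : ℕ) : x ^ n ∈ H := by
  induction n with
  | zero => simpa using h.one
  | succ n ih => rw [pow_succ]; exact h.mul _ ih _ hx

lemma CG.neg (h : CG H) {x : A} (hx : exp x ∈ H) : exp (-x) ∈ H := by
  obtain ⟨y, h1, h2⟩ := h.inv _ hx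
  have : exp (-x) = y := by
    rw [← mul_one (exp (-x)), ← h2, ← mul_assoc, eneg', one_mul]
  exact this ▸ h1

lemma CG.lim (h : CG H) {ι : Type} {l : Filter ι} [l.NeBot] {s : ι → ℝ} {c : ι → A} {X : A}
    (h1 : Tendsto s l (𝓝[>] 0)) (h2 : ∀ᶠ i in l, exp (c i) ∈ H)
    (h3 : Tendsto (fun i => (s i)⁻¹ • c i) l (𝓝 X)) (t : ℝ) : exp (t • X) ∈ H := by
  have key (t : ℝ) (ht : 0 ≤ t) : exp (t • X) ∈ H := by
    have p : ∀ᶠ i in l, 0 < s i := h1.eventually self_mem_nhdsWithin
    have a : Tendsto (fun i => (⌊t / s i⌋₊ : ℝ) * s i) l (𝓝 t) := by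
      refine tendsto_of_tendsto_of_tendsto_of_le_of_le' (g := fun i => t - s i) (h := fun _ => t)
        (by simpa using tendsto_const_nhds.sub (h1.mono_right nhdsWithin_le_nhds))
        tendsto_const_nhds (p.mono fun i hi => ?_) (p.mono fun i hi => ?_)
      · have := (Nat.lt_floor_add_one (t / s i)).le
        rw [div_le_iff₀ hi] at this
        linarith
      · exact (le_div_iff₀ hi).1 (Nat.floor_le (by positivity))
    refine h.cl.mem_of_tendsto ((econt.tendsto _).comp (a.smul h3)) ?_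
    filter_upwards [p, h2] with i hi k
    have : ((⌊t / s i⌋₊ : ℝ) * s i) • (s i)⁻¹ • c i = ⌊t / s i⌋₊ • c i := by
      rw [smul_smul, mul_assoc, mul_inv_cancel₀ hi.ne', mul_one, Nat.cast_smul_eq_nsmul]
    simp only [Function.comp, this, ensmul]
    exact h.pow k _
  rcases le_total 0 t with ht | ht
  · exact key t ht
  · simpa using h.neg (key (-t) (by linarith))

/-- the Lie algebra -/
def lie (h : CG H) : Submodule ℝ A where
  carrier := {X | ∀ t : ℝ, exp (t • X) ∈ H}
  zero_mem' t := by simpa using h.one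
  smul_mem' c X hX t := by simpa [smul_smul] using hX (t * c)
  add_mem' {X Y} hX hY := by
    have d : HasDerivAt (fun s : ℝ => lg (exp (s • X) * exp (s • Y))) (X + Y) 0 := by
      have := (lg_sd (A := A)).hasFDerivAt.comp_hasDerivAt_of_eq (0 : ℝ)
        ((ed0 X).hasDerivAt.mul (ed0 Y).hasDerivAt) (by simp)
      simpa [Function.comp_def] using this
    have c : Tendsto (fun s : ℝ => exp (s • X) * exp (s • Y)) (𝓝 0) (𝓝 1) :=
      Continuous.tendsto' (by fun_prop) _ _ (by simp)
    refine h.lim (l := 𝓝[>] 0) (s := id) (c := fun s => lg (exp (s • X) * exp (s • Y))) tendsto_id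
      (((c.eventually exp_lg).filter_mono nhdsWithin_le_nhds).mono fun s hs => ?_) ?_
    · rw [hs]
      exact h.mul _ (hX s) _ (hY s)
    · simpa [lg_one] using d.tendsto_slope_zero_right

lemma mem_lie {h : CG H} {X : A} : X ∈ lie h ↔ ∀ t : ℝ, exp (t • X) ∈ H := Iff.rfl

lemma exp_mem {h : CG H} {X : A} (hX : X ∈ lie h) : exp X ∈ H := by simpa using hX 1

variable [FiniteDimensional ℝ A]

omit [CompleteSpace A] in
lemma proj (W : Submodule ℝ A) : ∃ P : A →L[ℝ] A, (∀ x, P x ∈ W) ∧ ∀ x ∈ W, P x = x := by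
  obtain ⟨g, hg⟩ := W.subtype.exists_leftInverse_of_injective W.ker_subtype
  exact ⟨LinearMap.toContinuousLinearMap (W.subtype ∘ₗ g), fun x => (g x).2, fun x hx =>
    congrArg Subtype.val (LinearMap.congr_fun hg ⟨x, hx⟩)⟩

/-- von Neumann's closed subgroup theorem -/
theorem vn (h : CG H) : ∀ᶠ Y in 𝓝 (0 : A), exp Y ∈ H → Y ∈ lie h := by
  by_contra k
  obtain ⟨P, p1, p2⟩ := proj (lie h)
  let l := 𝓝 (0 : A) ⊓ 𝓟 {Y | exp Y ∈ H ∧ Y ∉ lie h}
  have : l.NeBot := frequently_iff_neBot.1 (by simpa using k)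
  have l1 : ∀ᶠ Y in l, exp Y ∈ H ∧ Y ∉ lie h := mem_inf_of_right (mem_principal_self _)
  have n0 : ∀ᶠ Y in l, 0 < ‖Y - P Y‖ := l1.mono fun Y hY =>
    norm_pos_iff.2 fun e => hY.2 (sub_eq_zero.1 e ▸ p1 Y)
  let u : A → A := fun Y => ‖Y - P Y‖⁻¹ • (Y - P Y)
  obtain ⟨b, b1, b2⟩ := ((isCompact_sphere (0 : A) 1).inter_right
    (isClosed_eq P.continuous (continuous_const (y := 0)))).exists_mapClusterPt (f := l) (u := u)
      (le_principal_iff.2 (n0.mono fun Y hY => ⟨by
        simp [u, norm_smul, inv_mul_cancel₀ hY.ne'], by simp [u, p2 _ (p1 Y)]⟩))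
  let l' := l ⊓ comap u (𝓝 b)
  have : l'.NeBot := by
    have := mapClusterPt_def.1 b2
    rwa [ClusterPt, inf_comm, ← Filter.push_pull, map_neBot_iff] at this
  have t0 : Tendsto id l' (𝓝 (0 : A)) := tendsto_id.mono_left (inf_le_left.trans inf_le_left)
  let F : A × A → A := fun z => lg (exp (-z.1) * exp (z.1 + z.2))
  have d : HasStrictFDerivAt F (ContinuousLinearMap.snd ℝ A A) 0 := by
    have f1 : HasStrictFDerivAt (@Prod.fst A A) (ContinuousLinearMap.fst ℝ A A) 0 :=
      hasStrictFDerivAt_fst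
    have e1 := sexp f1.neg (by simp)
    have e2 := sexp (f1.add hasStrictFDerivAt_snd) (by simp)
    exact (slg (e1.mul' e2) (by simp)).congr_fderiv (by ext <;> simp)
  have tP : Tendsto (fun Y => P Y) l' (𝓝 0) := by simpa using (P.continuous.tendsto 0).comp t0
  have tQ : Tendsto (fun Y => Y - P Y) l' (𝓝 0) := by simpa using t0.sub tP
  have o := d.isLittleO.comp_tendsto (k := fun Y => ((P Y, Y - P Y), (P Y, (0 : A)))) (l' := l')
    ((tP.prodMk_nhds tQ).prodMk_nhds (tP.prodMk_nhds tendsto_const_nhds))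
  have hb : b ∈ lie h := h.lim (l := l') (s := fun Y => ‖Y - P Y‖) (c := fun Y => F (P Y, Y - P Y))
    (tendsto_nhdsWithin_iff.2 ⟨by simpa using tQ.norm, n0.filter_mono inf_le_left⟩) (by
      have c : Tendsto (fun Y => exp (-P Y) * exp (P Y + (Y - P Y))) l' (𝓝 1) := by
        simpa using ((econt.tendsto _).comp tP.neg).mul ((econt.tendsto _).comp t0)
      filter_upwards [c.eventually exp_lg, l1.filter_mono inf_le_left] with Y a1 a2
      simp only [F]
      rw [a1]
      exact h.mul _ (h.neg (exp_mem (p1 Y))) _ (by simpa using a2.1)) (by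
      have o' : (fun Y => F (P Y, Y - P Y) - (Y - P Y)) =o[l'] fun Y => ‖Y - P Y‖ := by
        refine (o.congr_left fun Y => ?_).trans_isBigO (Asymptotics.IsBigO.of_bound 1
          (Eventually.of_forall fun Y => ?_))
        · simp [F, eneg', lg_one]
        · simp [Prod.norm_def]
      have := (Asymptotics.isLittleO_norm_left.2 o').tendsto_div_nhds_zero
      have t2 : Tendsto (fun Y => ‖Y - P Y‖⁻¹ • (F (P Y, Y - P Y) - (Y - P Y))) l' (𝓝 0) := by
        rw [tendsto_zero_iff_norm_tendsto_zero]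
        simpa [norm_smul, div_eq_inv_mul] using this
      have := t2.add (tendsto_comap.mono_left inf_le_right : Tendsto u l' (𝓝 b))
      simpa [u, smul_sub] using this)
  have : b = 0 := (p2 b hb).symm.trans b1.2
  simpa [this] using b1.1

theorem vn' (h : CG H) : ∀ᶠ y in 𝓝 (1 : A), exp (lg y) = y ∧ (y ∈ H → lg y ∈ lie h) := by
  filter_upwards [exp_lg, lg_t.eventually (vn h)] with y a b
  exact ⟨a, fun k => b (a.symm ▸ k)⟩

end Pool.Agent.Lib.helper13.VN
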