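import Mathlib
import Pool.Agent.Lib.helper13.VN

set_option autoImplicit false

namespace Pool.Agent.Lib.helper13.CptA

open Set Filter Topology NormedSpace Pool.Agent.Lib.helper13.VN MeasureTheory

variable {A : Type} [NormedRing A] [NormedAlgebra ℝ A] [CompleteSpace A] [FiniteDimensional ℝ A]

theorem ift {H D S : Set A} (h : CG H) (d1 : 1 ∈ D) (d2 : ∀ x ∈ D, ∀ y ∈ D, x * y ∈ D)
    (d3 : D ⊆ H) (hS : ∀ Y ∈ S, ∃ γ : ℝ → A, (∀ t, γ t ∈ D) ∧ γ 0 = 1 ∧ HasStrictDerivAt γ Y 0)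
    (hl : lie h ≤ Submodule.span ℝ S) {Y : A} (hY : Y ∈ lie h) : exp Y ∈ D := by
  let Q : (A →L[ℝ] A) → Prop := fun T => ∃ Φ : A → A, (∀ x, Φ x ∈ D) ∧ Φ 0 = 1 ∧
    HasStrictFDerivAt Φ T 0
  have q0 : Q 0 := ⟨fun _ => 1, fun _ => d1, rfl, hasStrictFDerivAt_const _ _⟩
  have q1 (T T') (a : Q T) (b : Q T') : Q (T + T') := by
    obtain ⟨Φ, a1, a2, a3⟩ := a
    obtain ⟨Ψ, b1, b2, b3⟩ := b
    exact ⟨fun x => Φ x * Ψ x, fun x => d2 _ (a1 x) _ (b1 x), by simp [a2, b2],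
      (a3.mul' b3).congr_fderiv (by ext; simp [a2, b2, add_comm])⟩
  have q2 (Z) (hZ : Z ∈ Submodule.span ℝ S) : ∀ f : A →L[ℝ] ℝ, Q (f.smulRight Z) := by
    induction hZ using Submodule.span_induction with
    | mem Z hZ =>
      intro f
      obtain ⟨γ, a1, a2, a3⟩ := hS Z hZ
      refine ⟨fun x => γ (f x), fun x => a1 _, by simp [a2], ?_⟩
      have := a3.hasStrictFDerivAt
      rw [← f.map_zero] at this
      exact (this.comp 0 f.hasStrictFDerivAt).congr_fderiv (by ext; simp)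
    | zero => exact fun f => by convert q0 using 1; ext; simp
    | add _ _ _ _ a b => exact fun f => by convert q1 _ _ (a f) (b f) using 1; ext; simp
    | smul c _ _ a => exact fun f => by convert a (c • f) using 1; ext; simp [smul_smul, mul_comm]
  obtain ⟨P, p1, p2⟩ := proj (lie h)
  let b := Module.finBasis ℝ A
  obtain ⟨Φ, a1, a2, a3⟩ : Q P := by
    have : P = ∑ i, (LinearMap.toContinuousLinearMap (b.coord i)).smulRight (P (b i)) := by
      ext x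
      conv_lhs => rw [← b.sum_repr x, map_sum]
      simp
    rw [this]
    exact Finset.sum_induction _ Q q1 q0 fun i _ => q2 _ (hl (p1 _)) _
  have d : HasStrictFDerivAt (fun x => lg (Φ x) + (x - P x))
      ((ContinuousLinearEquiv.refl ℝ A : A ≃L[ℝ] A) : A →L[ℝ] A) 0 :=
    ((slg a3 a2).add ((hasStrictFDerivAt_id 0).sub P.hasStrictFDerivAt)).congr_fderiv
      (by ext; simp)
  have e := d.map_nhds_eq_of_equiv
  simp only [a2, lg_one, map_zero, sub_zero, add_zero] at e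
  have t : Tendsto Φ (𝓝 0) (𝓝 1) := a2 ▸ a3.continuousAt.tendsto
  have k : ∀ᶠ Z in 𝓝 (0 : A), Z ∈ lie h → exp Z ∈ D := by
    rw [← e, eventually_map]
    filter_upwards [t.eventually (vn' h)] with x hx hz
    have h1 : x - P x ∈ lie h := by simpa using sub_mem hz (hx.2 (d3 (a1 x)))
    have h2 : x - P x = 0 := by rw [← p2 _ h1, map_sub, p2 _ (p1 x), sub_self]
    rw [h2, add_zero, hx.1]
    exact a1 x
  have t2 : Tendsto (fun n : ℕ => (1 / ((n : ℝ) + 1)) • Y) atTop (𝓝 0) := by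
    simpa using (tendsto_one_div_add_atTop_nhds_zero_nat (𝕜 := ℝ)).smul_const Y
  obtain ⟨n, hn⟩ := (t2.eventually k).exists
  have : Y = (n + 1) • (1 / ((n : ℝ) + 1)) • Y := by
    rw [← Nat.cast_smul_eq_nsmul ℝ, smul_smul]
    simp [mul_inv_cancel₀ (by positivity : (n : ℝ) + 1 ≠ 0)]
  rw [this, ensmul]
  generalize n + 1 = m
  induction m with
  | zero => simpa using d1
  | succ m ih => rw [pow_succ]; exact d2 _ ih _ (hn (Submodule.smul_mem _ _ hY))

variable {K : Type} [Group K] [TopologicalSpace K] [IsTopologicalGroup K] [CompactSpace K]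

lemma cover {B : Subgroup K} (hB : IsClosed (B : Set K)) {U : Set K} (hU : U ∈ 𝓝 1) :
    ∃ F : Set K, F.Finite ∧ ∀ b ∈ B, ∃ f ∈ F, f ∈ B ∧ f⁻¹ * b ∈ U := by
  obtain ⟨t, h1, h⟩ := hB.isCompact.elim_nhds_subcover (fun g : K => {x | g⁻¹ * x ∈ U})
    fun g _ => ((continuous_const_mul g⁻¹).tendsto' g 1 (by simp)) hU
  refine ⟨t, t.finite_toSet, fun x hx => ?_⟩
  obtain ⟨f, a, b⟩ := mem_iUnion₂.1 (h hx)
  exact ⟨f, a, h1 f a, b⟩

lemma fin_up {M : Type} [Monoid M] (ρ : K →* M) {B C : Subgroup K} (hB : IsClosed (B : Set K))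
    (h : ∀ᶠ x in 𝓝 1, x ∈ B → x ∈ C) (hC : (ρ '' C).Finite) : (ρ '' B).Finite := by
  obtain ⟨F, f1, f2⟩ := cover hB h
  refine ((f1.image ρ).image2 (· * ·) hC).subset ?_
  rintro _ ⟨b, hb, rfl⟩
  obtain ⟨f, a1, a2, a3⟩ := f2 b hb
  exact ⟨_, ⟨f, a1, rfl⟩, _, ⟨_, a3 (mul_mem (inv_mem a2) hb), rfl⟩, by simp [← map_mul]⟩

omit [TopologicalSpace K] [IsTopologicalGroup K] [CompactSpace K] in
lemma pow_fin {M : Type} [Monoid M] (ρ : K →* M) {B : Subgroup K} (h : (ρ '' B).Finite) :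
    ∃ m, 0 < m ∧ ∀ b ∈ B, ρ (b ^ m) = 1 := by
  have : Finite (B.map ρ.toHomUnits) := Set.Finite.of_finite_image (f := Units.val)
    (s := (B.map ρ.toHomUnits : Set Mˣ)) (h.subset (by
      rintro _ ⟨_, ⟨b, hb, rfl⟩, rfl⟩
      exact ⟨b, hb, rfl⟩)) Units.val_injective.injOn
  refine ⟨Nat.card (B.map ρ.toHomUnits), Nat.card_pos, fun b hb => ?_⟩
  have := congrArg (fun x : B.map ρ.toHomUnits => x.1.1)
    (pow_card_eq_one' (x := (⟨_, b, hb, rfl⟩ : B.map ρ.toHomUnits)))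
  simpa using this

variable {ρ : K →* A} (hc : Continuous ρ)
include hc

omit [NormedAlgebra ℝ A] [CompleteSpace A] [FiniteDimensional ℝ A] [IsTopologicalGroup K] in
lemma cg {B : Subgroup K} (hB : IsClosed (B : Set K)) : CG (ρ '' B) :=
  ⟨⟨1, one_mem _, ρ.map_one⟩, by
    rintro _ ⟨x, a, rfl⟩ _ ⟨y, b, rfl⟩
    exact ⟨_, mul_mem a b, ρ.map_mul x y⟩, by
    rintro _ ⟨x, a, rfl⟩
    exact ⟨_, ⟨x⁻¹, inv_mem a, rfl⟩, by simp [← map_mul]⟩, (hB.isCompact.image hc).isClosed⟩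

lemma fin_of_bot {B : Subgroup K} (hB : IsClosed (B : Set K)) (h : lie (cg hc hB) = ⊥) :
    (ρ '' B).Finite := by
  refine fin_up ρ hB (C := ρ.ker) ?_ ((finite_singleton 1).subset (by rintro _ ⟨x, a, rfl⟩; exact a))
  filter_upwards [(hc.tendsto' 1 1 ρ.map_one).eventually (vn' (cg hc hB))] with x hx k
  have := hx.2 ⟨x, k, rfl⟩
  rw [h, Submodule.mem_bot] at this
  rw [MonoidHom.mem_ker, ← hx.1, this, exp_zero]

omit [FiniteDimensional ℝ A] [IsTopologicalGroup K] in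
lemma lie_le {B C : Subgroup K} (hB : IsClosed (B : Set K)) (hC : IsClosed (C : Set K))
    {m : ℕ} (hm : 0 < m) (h : ∀ b ∈ B, ρ (b ^ m) ∈ ρ '' C) : lie (cg hc hB) ≤ lie (cg hc hC) := by
  intro X hX t
  obtain ⟨b, b1, b2⟩ := hX (t / m)
  have : t • X = m • (t / m) • X := by
    rw [← Nat.cast_smul_eq_nsmul ℝ, smul_smul, mul_div_cancel₀ _ (by positivity)]
  rw [this, ensmul, ← b2, ← map_pow]
  exact h b b1

omit [FiniteDimensional ℝ A] [IsTopologicalGroup K] in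
lemma bot_of_pow {B : Subgroup K} (hB : IsClosed (B : Set K)) {m : ℕ} (hm : 0 < m)
    (h : ∀ b ∈ B, ρ (b ^ m) = 1) : lie (cg hc hB) = ⊥ := by
  refine eq_bot_iff.2 fun X hX => eq0 fun t => ?_
  obtain ⟨b, b1, b2⟩ := hX (t / m)
  have : t • X = m • (t / m) • X := by
    rw [← Nat.cast_smul_eq_nsmul ℝ, smul_smul, mul_div_cancel₀ _ (by positivity)]
  rw [this, ensmul, ← b2, ← map_pow, h b b1]

/-- invariance under conjugation -/
def Inv (ρ : K →* A) (W : Submodule ℝ A) : Prop := ∀ k, ∀ Y ∈ W, ρ k * Y * ρ k⁻¹ ∈ W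

omit [FiniteDimensional ℝ A] [IsTopologicalGroup K] in
lemma lie_inv {B : Subgroup K} [hn : B.Normal] (hB : IsClosed (B : Set K)) :
    Inv ρ (lie (cg hc hB)) := fun k Y hY t => by
  obtain ⟨b, b1, b2⟩ := hY t
  rw [← smul_mul_assoc, ← mul_smul_comm, econj (by simp [← map_mul]) (by simp [← map_mul]), ← b2]
  exact ⟨_, hn.conj_mem b b1 k, by simp⟩

lemma maschke [T2Space K] {W : Submodule ℝ A} (hW : Inv ρ W) : ∃ P : A →L[ℝ] A, (∀ x, P x ∈ W) ∧
    (∀ x ∈ W, P x = x) ∧ ∀ k x, P (ρ k * x * ρ k⁻¹) = ρ k * P x * ρ k⁻¹ := by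
  obtain ⟨P, p1, p2⟩ := proj W
  borelize K
  let μ : Measure K := Measure.haarMeasure ⊤
  have : IsProbabilityMeasure μ := ⟨Measure.haarMeasure_self⟩
  have i (x : A) : Integrable (fun k => ρ k * P (ρ k⁻¹ * x * ρ k) * ρ k⁻¹) μ :=
    Continuous.integrable_of_hasCompactSupport (by fun_prop) (HasCompactSupport.of_compactSpace _)
  refine ⟨LinearMap.toContinuousLinearMap
    { toFun := fun x => ∫ k, ρ k * P (ρ k⁻¹ * x * ρ k) * ρ k⁻¹ ∂μ
      map_add' := fun x y => by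
        rw [← integral_add (i x) (i y)]
        simp [mul_add, add_mul]
      map_smul' := fun c x => by
        rw [RingHom.id_apply, ← integral_smul]
        simp }, fun x => W.convex.integral_mem W.closed_of_finiteDimensional
          (Eventually.of_forall fun k => hW k _ (p1 _)) (i x), fun x hx => ?_, fun k x => ?_⟩
  · have (k : K) : ρ k * P (ρ k⁻¹ * x * ρ k) * ρ k⁻¹ = x := by
      rw [p2 _ (by simpa using hW k⁻¹ x hx)]
      simp [mul_assoc, ← map_mul, ← mul_assoc (ρ k)]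
    simp [this]
  · have := (ContinuousLinearMap.mulLeftRight ℝ A (ρ k) (ρ k⁻¹)).integral_comp_comm (i x)
    simp only [ContinuousLinearMap.mulLeftRight_apply] at this
    simp only [LinearMap.coe_toContinuousLinearMap', LinearMap.coe_mk, AddHom.coe_mk]
    rw [← this, ← integral_mul_left_eq_self _ k]
    refine integral_congr_ae (Eventually.of_forall fun g => ?_)
    have e : ρ (k * g)⁻¹ * (ρ k * x * ρ k⁻¹) * ρ (k * g) = ρ g⁻¹ * x * ρ g := by
      simp only [← mul_assoc, ← map_mul]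
      simp only [mul_assoc, ← map_mul]
      simp
    simp only [e]
    simp [mul_assoc]

/-- centraliser in `B` of a set of algebra elements -/
def cen (ρ : K →* A) (B : Subgroup K) (W : Set A) : Subgroup K where
  carrier := {b | b ∈ B ∧ ∀ Y ∈ W, Commute (ρ b) Y}
  one_mem' := ⟨one_mem _, fun Y _ => by simp⟩
  mul_mem' a b := ⟨mul_mem a.1 b.1, fun Y h => by
    rw [map_mul]; exact (a.2 Y h).mul_left (b.2 Y h)⟩
  inv_mem' {x} a := ⟨inv_mem a.1, fun Y h => Commute.units_inv_left (u := ρ.toHomUnits x) (a.2 Y h)⟩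

omit [NormedAlgebra ℝ A] [CompleteSpace A] [FiniteDimensional ℝ A] [IsTopologicalGroup K]
  [CompactSpace K] in
lemma cen_cl {B : Subgroup K} (hB : IsClosed (B : Set K)) (W : Set A) :
    IsClosed (cen ρ B W : Set K) := by
  have : (cen ρ B W : Set K) = ↑B ∩ ⋂ Y ∈ W, {b | ρ b * Y = Y * ρ b} :=
    Set.ext fun b => and_congr_right fun _ =>
      (mem_iInter₂ (s := fun Y (_ : Y ∈ W) => {b | ρ b * Y = Y * ρ b})).symm
  exact this ▸ hB.inter (isClosed_biInter fun Y _ => isClosed_eq (by fun_prop) (by fun_prop))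

omit [NormedAlgebra ℝ A] [CompleteSpace A] [FiniteDimensional ℝ A] [IsTopologicalGroup K]
  [CompactSpace K] [TopologicalSpace K] hc in
lemma cen_n {B : Subgroup K} [hn : B.Normal] {W : Set A}
    (hW : ∀ k, ∀ Y ∈ W, ρ k * Y * ρ k⁻¹ ∈ W) : (cen ρ B W).Normal :=
  ⟨fun b hb k => ⟨hn.conj_mem b hb.1 k, fun Y h => by
    have := congrArg (fun z => ρ k * z * ρ k⁻¹) (hb.2 _ (hW k⁻¹ Y h)).eq
    simpa [mul_assoc, ← map_mul, ← mul_assoc (ρ _) (ρ _), Commute, SemiconjBy] using this⟩⟩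

lemma cent [T2Space K] {B : Subgroup K} (hB : IsClosed (B : Set K)) {W : Submodule ℝ A}
    (hW : Inv ρ W) (h : W ≤ lie (cg hc hB)) {X : A} (hX : X ∈ lie (cg hc hB)) :
    ∃ Y ∈ W, X - Y ∈ lie (cg hc (cen_cl hc hB W)) := by
  obtain ⟨P, p1, p2, p3⟩ := maschke hc hW
  have br {X : A} (hX : X ∈ lie (cg hc hB)) (Y : A) : P (X * Y - Y * X) = X * P Y - P Y * X := by
    have d (Y : A) : HasDerivAt (fun t : ℝ => exp (t • X) * Y * exp (t • -X)) (X * Y - Y * X) 0 :=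
      (((ed0 X).hasDerivAt.mul_const Y).mul (ed0 (-X)).hasDerivAt).congr_deriv
        (by simp [sub_eq_add_neg])
    refine (P.hasFDerivAt.comp_hasDerivAt 0 (d Y)).unique ((d (P Y)).congr_of_eventuallyEq
      (Eventually.of_forall fun t => ?_))
    obtain ⟨b, -, e⟩ := hX t
    have : exp (t • -X) = ρ b⁻¹ := by
      rw [← mul_one (exp _), ← ρ.map_one, ← mul_inv_cancel b, map_mul, e, ← mul_assoc, smul_neg,
        eneg', one_mul]
    simp only [Function.comp, ← e, this, p3]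
  have m : X - P X ∈ lie (cg hc hB) := sub_mem hX (h (p1 X))
  refine ⟨P X, p1 X, fun t => ?_⟩
  obtain ⟨b, b1, b2⟩ := m t
  refine ⟨b, ⟨b1, fun Y hY => ?_⟩, b2⟩
  have a1 := br m Y
  have a2 := br (h hY) (X - P X)
  rw [map_sub P X, p2 _ (p1 X), sub_self, mul_zero, zero_mul, sub_self, ← neg_sub, map_neg, a1,
    p2 _ hY, neg_eq_zero, sub_eq_zero] at a2
  rw [b2]
  exact ((show Commute _ _ from a2).smul_left t).exp_left

lemma near {B : Subgroup K} (hB : IsClosed (B : Set K)) {b : K} (hb : b ∈ B) (N : ℕ) :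
    ∃ m ≥ N, ∃ Y ∈ lie (cg hc hB), ‖Y‖ < 1 ∧ exp Y = ρ (b ^ m) := by
  have t := hc.tendsto' 1 1 ρ.map_one
  obtain ⟨m, h1, h2⟩ := (((mapClusterPt_one_atTop_pow b).frequently ((t.eventually
    (vn' (cg hc hB))).and ((lg_t.comp t).eventually (eventually_norm_sub_lt 0 one_pos)))).and_eventually
      (eventually_ge_atTop N)).exists
  exact ⟨m, h2, _, h1.1.2 ⟨_, pow_mem hb m, rfl⟩, by simpa using h1.2, h1.1.1⟩

lemma tor {B : Subgroup K} (hB : IsClosed (B : Set K)) (h : lie (cg hc hB) ≠ ⊥) :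
    ∃ Y ∈ lie (cg hc hB), exp Y ≠ 1 ∧ exp Y ^ 2 = 1 := by
  obtain ⟨X, hX, x0⟩ := (Submodule.ne_bot_iff _).1 h
  obtain ⟨b, b1, b2⟩ := exp_mem hX
  obtain ⟨N, hN⟩ := exists_nat_ge ‖X‖⁻¹
  obtain ⟨m, h1, Y, h2, h3, h4⟩ := near hc (cen_cl hc hB {X}) (b := b) ⟨b1, by
    simpa [b2] using (Commute.refl X).exp_left⟩ N
  have c : Commute Y X := comm_of fun t => by
    obtain ⟨c, c1, c2⟩ := h2 t
    exact c2 ▸ c1.2 X rfl
  have z1 : m • X - Y ∈ lie (cg hc hB) := sub_mem (nsmul_mem hX m)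
    (lie_le hc (cen_cl hc hB {X}) hB one_pos (fun b hb => ⟨b, hb.1, by simp⟩) h2)
  have z2 : exp (m • X - Y) = 1 := by
    rw [sub_eq_add_neg, eadd (c.symm.smul_left m).neg_right, ensmul, ← b2, ← map_pow, ← h4, eneg]
  have z3 : m • X - Y ≠ 0 := fun e => by
    have := norm_pos_iff.2 x0
    rw [← sub_eq_zero.1 e, ← Nat.cast_smul_eq_nsmul ℝ, norm_smul, Real.norm_natCast] at h3
    rw [inv_le_iff_one_le_mul₀ this] at hN
    have : (N : ℝ) ≤ m := by exact_mod_cast h1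
    nlinarith
  generalize m • X - Y = Z at z1 z2 z3
  have t : Tendsto (fun k : ℕ => (1 / 2 : ℝ) ^ k • Z) atTop (𝓝 0) := by
    simpa using (tendsto_pow_atTop_nhds_zero_of_lt_one (r := (1 / 2 : ℝ)) (by norm_num)
      (by norm_num)).smul_const Z
  have ex : ∃ k : ℕ, exp ((1 / 2 : ℝ) ^ k • Z) ≠ 1 := (t.eventually lg_exp).exists.imp
    fun k hk e => z3 (by rw [e, lg_one] at hk; simpa using hk.symm)
  obtain ⟨k, k1, k2⟩ := Nat.exists_not_and_succ_of_not_zero_of_exists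
    (p := fun k => exp ((1 / 2 : ℝ) ^ k • Z) ≠ 1) (by simpa using z2) ex
  refine ⟨_, Submodule.smul_mem _ _ z1, k2, ?_⟩
  rw [← ensmul, ← Nat.cast_smul_eq_nsmul ℝ, smul_smul, ← not_not.1 k1]
  congr 2
  push_cast
  ring

end Pool.Agent.Lib.helper13.CptA
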