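import Mathlib
import Pool.Agent.Lib.helper13.CptA

set_option autoImplicit false

namespace Pool.Agent.Lib.helper13.CptB

open Set Filter Topology NormedSpace Pool.Agent.Lib.helper13.VN Pool.Agent.Lib.helper13.CptA

variable {K : Type} [Group K] [TopologicalSpace K] [IsTopologicalGroup K] [CompactSpace K]
  [T2Space K]

/-- closed normal subgroups -/
def CN (B : Subgroup K) : Prop := B.Normal ∧ IsClosed (B : Set K)

lemma zornD {α : Type} [Preorder α] (S : Set α)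
    (H : ∀ c ⊆ S, IsChain (· ≤ ·) c → c.Nonempty → ∃ lb ∈ S, ∀ s ∈ c, lb ≤ s) (x) (hx : x ∈ S) :
    ∃ m, m ≤ x ∧ Minimal (· ∈ S) m :=
  @zorn_le_nonempty₀ αᵒᵈ _ S (fun _ cS hc y yc => H _ cS hc.symm ⟨y, yc⟩) _ hx

omit [IsTopologicalGroup K] [T2Space K] in
lemma zornM {B₀ : Subgroup K} (h0 : CN B₀) {J : Type} (C : J → Set K) (hC : ∀ j, IsClosed (C j))
    (hm : ∀ j, ∃ b ∈ B₀, b ∈ C j) : ∃ B ≤ B₀, CN B ∧ (∀ j, ∃ b ∈ B, b ∈ C j) ∧
      ∀ B' ≤ B, CN B' → (∀ j, ∃ b ∈ B', b ∈ C j) → B ≤ B' := by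
  obtain ⟨B, e1, e2⟩ := zornD {B : Subgroup K | CN B ∧ ∀ j, ∃ b ∈ B, b ∈ C j} (fun c hc hc' hz => by
      have : Nonempty c := hz.to_subtype
      refine ⟨⨅ E : c, E.1, ⟨⟨Subgroup.normal_iInf_normal fun E => (hc E.2).1.1, ?_⟩, fun j => ?_⟩,
        fun E hE => iInf_le (fun E : c => E.1) ⟨E, hE⟩⟩
      · rw [Subgroup.coe_iInf]
        exact isClosed_iInter fun E => (hc E.2).1.2
      have cl (E : c) : IsClosed ((E.1 : Set K) ∩ C j) := (hc E.2).1.2.inter (hC j)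
      obtain ⟨e, he⟩ := IsCompact.nonempty_iInter_of_directed_nonempty_isCompact_isClosed
        (ι := c) _ (fun a b => (hc'.total a.2 b.2).elim
          (fun h => ⟨a, subset_rfl, inter_subset_inter_left _ h⟩)
          fun h => ⟨b, inter_subset_inter_left _ h, subset_rfl⟩)
        (fun E => (hc E.2).2 j) (fun E => (cl E).isCompact) cl
      exact ⟨e, Subgroup.mem_iInf.2 fun E => (mem_iInter.1 he E).1,
        (mem_iInter.1 he this.some).2⟩)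
    B₀ ⟨h0, hm⟩
  exact ⟨B, e1, e2.1.1, e2.1.2, fun B' a b c => e2.2 ⟨b, c⟩ a⟩

/-- elements of `B` commuting with `R` modulo `Z` -/
def cm (B R Z : Subgroup K) [hn : Z.Normal] : Subgroup K where
  carrier := {b | b ∈ B ∧ ∀ r ∈ R, b * r * b⁻¹ * r⁻¹ ∈ Z}
  one_mem' := ⟨one_mem _, fun r _ => by simp⟩
  mul_mem' {a b} x y := ⟨mul_mem x.1 y.1, fun r h => by
    convert mul_mem (hn.conj_mem _ (y.2 r h) a) (x.2 r h) using 1; group⟩
  inv_mem' {a} x := ⟨inv_mem x.1, fun r h => by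
    convert hn.conj_mem _ (inv_mem (x.2 r h)) a⁻¹ using 1; group⟩

omit [CompactSpace K] [T2Space K] in
lemma cm_cn {B R Z : Subgroup K} [hn : Z.Normal] (hB : CN B) (hR : R.Normal)
    (hZ : IsClosed (Z : Set K)) : CN (cm B R Z) := by
  refine ⟨⟨fun b hb k => ⟨hB.1.conj_mem b hb.1 k, fun r h => ?_⟩⟩, ?_⟩
  · convert hn.conj_mem _ (hb.2 _ (hR.conj_mem r h k⁻¹)) k using 1
    group
  · have : (cm B R Z : Set K) = ↑B ∩ ⋂ r ∈ R, {b | b * r * b⁻¹ * r⁻¹ ∈ Z} :=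
      Set.ext fun b => and_congr_right fun _ =>
        (mem_iInter₂ (s := fun r (_ : r ∈ R) => {b | b * r * b⁻¹ * r⁻¹ ∈ Z})).symm
    exact this ▸ hB.2.inter (isClosed_biInter fun Y _ => hZ.preimage (by fun_prop))

section one
variable {A : Type} [NormedRing A] [NormedAlgebra ℝ A] [CompleteSpace A] [FiniteDimensional ℝ A]
  {ρ : K →* A}

/-- elements whose `N`-th power is killed -/
def pw (ρ : K →* A) (B : Subgroup K) (h : ∀ a ∈ B, ∀ b ∈ B, Commute a b) (N : ℕ) : Subgroup K where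
  carrier := {b | b ∈ B ∧ ρ (b ^ N) = 1}
  one_mem' := ⟨one_mem _, by simp⟩
  mul_mem' {a b} x y := ⟨mul_mem x.1 y.1, by rw [(h a x.1 b y.1).mul_pow, map_mul, x.2, y.2, one_mul]⟩
  inv_mem' {a} x := ⟨inv_mem x.1, by rw [inv_pow]; exact inv_mem (s := ρ.ker) x.2⟩

variable (hc : Continuous ρ)
include hc

omit [CompactSpace K] [T2Space K] [NormedAlgebra ℝ A] [CompleteSpace A] [FiniteDimensional ℝ A] in
lemma pw_cn {B : Subgroup K} (hB : CN B) (h : ∀ a ∈ B, ∀ b ∈ B, Commute a b) (N : ℕ) :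
    CN (pw ρ B h N) :=
  ⟨⟨fun b hb k => ⟨hB.1.conj_mem b hb.1 k, by
    rw [conj_pow]; exact ρ.normal_ker.conj_mem _ hb.2 k⟩⟩,
    hB.2.inter (isClosed_eq (f := fun b => ρ (b ^ N)) (by fun_prop) continuous_const)⟩

omit [CompactSpace K] [T2Space K] [NormedAlgebra ℝ A] [CompleteSpace A] [FiniteDimensional ℝ A]
  [IsTopologicalGroup K] in
lemma ker_cn {B : Subgroup K} (hB : CN B) : CN (B ⊓ ρ.ker) :=
  ⟨by have := hB.1; infer_instance, hB.2.inter (isClosed_eq hc continuous_const)⟩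

omit [FiniteDimensional ℝ A] [IsTopologicalGroup K] [T2Space K] in
lemma bot_of_fin {B : Subgroup K} (hB : IsClosed (B : Set K)) (h : (ρ '' B).Finite) :
    lie (cg hc hB) = ⊥ :=
  have ⟨_, a, b⟩ := pow_fin ρ h
  bot_of_pow hc hB a b

/-- the minimality property -/
def Mi (ρ : K →* A) (B : Subgroup K) : Prop :=
  CN B ∧ (ρ '' B).Infinite ∧ ∀ B' ≤ B, CN B' → (ρ '' B').Infinite → B ≤ B'

omit [T2Space K] in
lemma exMi {E : Subgroup K} (hE : CN E) (h : (ρ '' E).Infinite) : ∃ B ≤ E, Mi ρ B := by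
  obtain ⟨⟨B₀, a1, a2, a3⟩, -, hm⟩ := (InvImage.wf (fun B : {B // B ≤ E ∧ CN B ∧
    (ρ '' B).Infinite} => Module.finrank ℝ (lie (cg hc B.2.2.1.2))) wellFounded_lt).has_min univ
      ⟨⟨E, le_rfl, hE, h⟩, trivial⟩
  obtain ⟨B, b1, b2, b3, b4⟩ := zornM a2 (fun X : lie (cg hc a2.2) => ρ ⁻¹' {exp X.1})
    (fun _ => isClosed_singleton.preimage hc) fun X => exp_mem X.2
  refine ⟨B, b1.trans a1, b2, fun k => a3 (fin_of_bot hc a2.2 (eq_bot_iff.2 ?_)),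
    fun B' c1 c2 c3 => b4 B' c1 c2 fun X => ?_⟩
  · rw [← bot_of_fin hc b2.2 k]
    exact fun X hX t => b3 ⟨_, Submodule.smul_mem _ t hX⟩
  · have := Submodule.eq_of_le_of_finrank_le (lie_le hc c2.2 a2.2 one_pos fun b hb =>
      ⟨b, b1 (c1 hb), by simp⟩) (not_lt.1 (hm ⟨B', (c1.trans b1).trans a1, c2, c3⟩ trivial))
    exact exp_mem (this.ge X.2)

lemma invol {B D : Subgroup K} (hB : Mi ρ B) (hi : ∀ x ∈ B, ρ x = 1 → x = 1)
    (hz : cm B B ⊥ = ⊥) (hD : D.Normal) (h1 : D ≤ B) (h2 : D ≠ ⊥) :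
    ∃ d ∈ D, d ≠ 1 ∧ d ^ 2 = 1 := by
  obtain ⟨⟨hn, hcl⟩, b1, b2⟩ := hB
  let S : Set A := {Y | ∃ d ∈ D, ∃ X ∈ lie (cg hc hcl), X - ρ d * X * ρ d⁻¹ = Y}
  have w1 : Submodule.span ℝ S ≤ lie (cg hc hcl) := Submodule.span_le.2 (by
    rintro _ ⟨d, -, X, hX, rfl⟩
    exact sub_mem hX (lie_inv hc hcl d X hX))
  have w2 : Inv ρ (Submodule.span ℝ S) := fun k Y hY => by
    induction hY using Submodule.span_induction with
    | mem Y hY =>
      obtain ⟨d, a, X, hX, rfl⟩ := hY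
      refine Submodule.subset_span ⟨_, hD.conj_mem d a k, _, lie_inv hc hcl k X hX, ?_⟩
      simp [mul_sub, sub_mul, mul_assoc, ← map_mul, ← mul_assoc (ρ _) (ρ _)]
    | zero => simp
    | add _ _ _ _ a b => simpa [mul_add, add_mul] using add_mem a b
    | smul c _ _ a => simpa using Submodule.smul_mem _ c a
  have cmm {x y : K} (hx : x ∈ B) (hy : y ∈ B) (h : Commute (ρ x) (ρ y)) :
      x * y * x⁻¹ * y⁻¹ ∈ (⊥ : Subgroup K) := hi _ (mul_mem (hn.conj_mem y hy x) (inv_mem hy)) (by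
        rw [map_mul, map_mul, map_mul, h.eq]
        simp only [← map_mul]
        simp)
  by_cases hf : (ρ '' cen ρ B (Submodule.span ℝ S)).Finite
  · have hl : lie (cg hc hcl) ≤ Submodule.span ℝ S := fun X hX => by
      obtain ⟨Y, a, b⟩ := cent hc hcl w2 w1 hX
      rw [bot_of_fin hc (cen_cl hc hcl _) hf, Submodule.mem_bot, sub_eq_zero] at b
      exact b ▸ a
    obtain ⟨Y, y1, y2, y3⟩ := tor hc hcl fun e => b1 (fin_of_bot hc hcl e)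
    obtain ⟨d, d1, d2⟩ := ift (D := ρ '' D) (cg hc hcl) ⟨1, one_mem _, ρ.map_one⟩ (by
      rintro _ ⟨x, a, rfl⟩ _ ⟨y, b, rfl⟩
      exact ⟨_, mul_mem a b, ρ.map_mul x y⟩) (image_mono h1) (by
      rintro _ ⟨d, a, X, hX, rfl⟩
      refine ⟨fun t => exp (t • X) * ρ d * exp (t • -X) * ρ d⁻¹, fun t => ?_, by simp [← map_mul],
        ((((ed0 X).mul_const _).mul (ed0 (-X))).mul_const _).congr_deriv ?_⟩
      · obtain ⟨b, -, e⟩ := hX t
        have : exp (t • -X) = ρ b⁻¹ := by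
          rw [← mul_one (exp _), ← ρ.map_one, ← mul_inv_cancel b, map_mul, e, ← mul_assoc, smul_neg,
            eneg', one_mul]
        exact ⟨_, mul_mem (hD.conj_mem d a b) (inv_mem a), by simp only [← e, this, map_mul]⟩
      · simp [add_mul, mul_assoc, ← map_mul, sub_eq_add_neg]) hl y1
    exact ⟨d, d1, fun e => y2 (by rw [← d2, e, map_one]),
      hi _ (pow_mem (h1 d1) 2) (by rw [map_pow, d2, y3])⟩
  have c1 := b2 (cen ρ B _) (fun _ h => h.1) ⟨cen_n w2, cen_cl hc hcl _⟩ hf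
  have c2 (Y) (hY : Y ∈ Submodule.span ℝ S) : Y = 0 := eq0 fun t => by
    obtain ⟨b, a, e⟩ := w1 hY t
    have : b ∈ cm B B ⊥ := ⟨a, fun r hr => cmm a hr
      (e ▸ (((c1 hr).2 Y hY).symm.smul_left t).exp_left)⟩
    rw [hz, Subgroup.mem_bot] at this
    rw [← e, this, map_one]
  have c3 := b2 (cm B D ⊥) (fun _ h => h.1) (cm_cn ⟨hn, hcl⟩ hD isClosed_singleton)
    fun k => b1 (fin_up ρ hcl (by
      filter_upwards [(hc.tendsto' 1 1 ρ.map_one).eventually (vn' (cg hc hcl))] with x hx k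
      refine ⟨k, fun d hd => cmm k (h1 hd) ?_⟩
      have := c2 _ (Submodule.subset_span ⟨d, hd, _, hx.2 ⟨x, k, rfl⟩, rfl⟩)
      rw [← hx.1]
      refine Commute.exp_left ?_
      have := congrArg (· * ρ d) (sub_eq_zero.1 this)
      simpa [mul_assoc, ← map_mul, Commute, SemiconjBy] using this) k)
  refine (h2 (eq_bot_iff.2 fun d hd => hz.le ⟨h1 hd, fun r hr => ?_⟩)).elim
  simpa [mul_assoc] using inv_mem ((c3 hr).2 d hd)

end one

variable {ι : Type} {A : ι → Type} [∀ i, NormedRing (A i)] [∀ i, NormedAlgebra ℝ (A i)]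
  [∀ i, CompleteSpace (A i)] [∀ i, FiniteDimensional ℝ (A i)] {ρ : ∀ i, K →* A i}

/-- a directed separating family of finite dimensional representations -/
structure Fam (ρ : ∀ i, K →* A i) : Prop where
  c : ∀ i, Continuous (ρ i)
  dir : ∀ i j, ∃ k, ∀ x, ρ k x = 1 → ρ i x = 1 ∧ ρ j x = 1
  sep : ∀ x, x ≠ 1 → ∃ i, ρ i x ≠ 1

omit [T2Space K] in
lemma abel (h : Fam ρ) {E : Subgroup K} (hE : CN E) (h1 : ∀ a ∈ E, ∀ b ∈ E, Commute a b)
    (h2 : E ≠ ⊥) : ∃ F ≤ E, CN F ∧ F ≠ ⊥ ∧ ∀ i, (ρ i '' F).Finite := by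
  obtain ⟨⟨a, a1⟩, a2⟩ := Subgroup.ne_bot_iff_exists_ne_one.1 h2
  obtain ⟨i, hi⟩ := h.sep a fun e => a2 (Subtype.ext e)
  obtain ⟨p, p0, a, a1, a2, a3⟩ : ∃ p, 0 < p ∧ ∃ a ∈ E, ρ i a ≠ 1 ∧ ρ i (a ^ p) = 1 := by
    by_cases k : lie (cg (h.c i) hE.2) = ⊥
    · obtain ⟨m, m1, m2⟩ := pow_fin _ (fin_of_bot (h.c i) hE.2 k)
      exact ⟨m, m1, a, a1, hi, m2 a a1⟩
    · obtain ⟨Y, y1, y2, y3⟩ := tor (h.c i) hE.2 k
      obtain ⟨b, b1, b2⟩ := exp_mem y1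
      exact ⟨2, two_pos, b, b1, b2 ▸ y2, by rw [map_pow, b2, y3]⟩
  have e1 := pw_cn (h.c i) hE h1 p
  have : Finite (ρ i '' pw (ρ i) E h1 p) :=
    (fin_of_bot (h.c i) e1.2 (bot_of_pow (h.c i) e1.2 p0 fun b hb => hb.2)).to_subtype
  have := Fintype.ofFinite (ρ i '' pw (ρ i) E h1 p)
  obtain ⟨B, b1, b2, b3, b4⟩ := zornM e1 (fun y : ρ i '' pw (ρ i) E h1 p => ρ i ⁻¹' {y.1})
    (fun _ => isClosed_singleton.preimage (h.c i)) fun y => y.2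
  have hB : ∀ a ∈ B, ∀ b ∈ B, Commute a b := fun a x b y => h1 a (b1 x).1 b (b1 y).1
  refine ⟨B, fun x hx => (b1 hx).1, b2, fun e => ?_, fun j => ?_⟩
  · obtain ⟨b, c1, c2⟩ := b3 ⟨_, a, ⟨a1, a3⟩, rfl⟩
    rw [e, Subgroup.mem_bot] at c1
    exact a2 (by simpa [c1] using c2.symm)
  have (y : ρ i '' pw (ρ i) E h1 p) : ∃ m, 0 < m ∧ ∃ b ∈ B, ρ j (b ^ m) = 1 ∧ ρ i b = y := by
    obtain ⟨b, c1, c2⟩ := b3 y
    obtain ⟨m, m1, Y, y1, -, y2⟩ := near (h.c j) b2.2 c1 1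
    obtain ⟨c, c3, c4⟩ := lie_le (h.c j) b2.2 (ker_cn (h.c i) b2).2 p0
      (fun b hb => ⟨_, ⟨pow_mem hb p, (b1 hb).2⟩, rfl⟩) y1 (1 / m)
    have : ρ j (c ^ m) = ρ j (b ^ m) := by
      rw [map_pow, c4, ← ensmul, ← Nat.cast_smul_eq_nsmul ℝ, smul_smul,
        mul_one_div_cancel (by positivity), one_smul, y2]
    refine ⟨m, m1, b * c⁻¹, mul_mem c1 (inv_mem c3.1), ?_, ?_⟩
    · rw [(hB b c1 _ (inv_mem c3.1)).mul_pow, map_mul, ← this, ← map_mul]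
      simp
    · rw [map_mul, show ρ i c⁻¹ = 1 from inv_mem (s := (ρ i).ker) c3.2, mul_one, c2]
  choose m m0 b c1 c2 c3 using this
  have := b4 (pw (ρ j) B hB _) (fun _ h => h.1) (pw_cn (h.c j) b2 hB (∏ y, m y)) fun y => ⟨b y, ⟨c1 y, by
    obtain ⟨n, hn⟩ := Finset.dvd_prod_of_mem m (Finset.mem_univ y)
    rw [hn, pow_mul, map_pow, c2, one_pow]⟩, c3 y⟩
  exact fin_of_bot (h.c j) b2.2 (bot_of_pow (h.c j) b2.2 (Finset.prod_pos fun y _ => m0 y)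
    fun b hb => (this hb).2)

lemma comm3 (h : Fam ρ) {i k : ι} (hk : ∀ x, ρ k x = 1 → ρ i x = 1) {B : Subgroup K}
    (hB : Mi (ρ i) B) : B ≤ @cm _ _ B (B ⊓ (ρ i).ker) (cen (ρ k) ⊤ (ρ k '' B)) (cen_n (by
      rintro g _ ⟨b, hb, rfl⟩
      exact ⟨_, hB.1.1.conj_mem b hb g, by simp⟩)) := by
  obtain ⟨⟨hn, hcl⟩, b1, b2⟩ := hB
  have hR := ker_cn (h.c i) ⟨hn, hcl⟩
  have := hR.1
  have t := (h.c k).tendsto' 1 1 (ρ k).map_one
  have c1 := b2 (cen (ρ k) B _) (fun _ h => h.1)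
      ⟨cen_n (lie_inv (h.c k) hR.2), cen_cl (h.c k) hcl _⟩ fun hf => by
    obtain ⟨m, m1, m2⟩ := pow_fin _ hf
    have l1 := lie_le (h.c k) (cen_cl (h.c k) hcl _) hR.2 m1
      fun b hb => ⟨_, ⟨pow_mem hb.1 m, m2 b hb⟩, rfl⟩
    refine b1 (fin_up _ hcl (C := (ρ i).ker) ?_ ((finite_singleton 1).subset (by
      rintro _ ⟨x, a, rfl⟩; exact a)))
    filter_upwards [t.eventually (vn' (cg (h.c k) hcl))] with x hx hb
    obtain ⟨Y, y1, y2⟩ := cent (h.c k) hcl (lie_inv (h.c k) hR.2) (lie_le (h.c k) hR.2 hcl one_pos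
      fun b hb => ⟨b, hb.1, by simp⟩) (hx.2 ⟨x, hb, rfl⟩)
    obtain ⟨r, r1, r2⟩ := exp_mem (add_mem (l1 y2) y1)
    rw [sub_add_cancel, hx.1] at r2
    simpa using mul_mem (s := (ρ i).ker) (hk (x * r⁻¹) (by rw [map_mul, ← r2, ← map_mul]; simp)) r1.2
  refine b2 _ (fun _ h => h.1) (@cm_cn _ _ _ _ _ _ _ (_) ⟨hn, hcl⟩ hR.1
    (cen_cl (h.c k) isClosed_univ _)) fun hf => b1 (fin_up _ hcl ?_ hf)
  have u : ∀ᶠ x in 𝓝 1, x ∈ B ⊓ (ρ i).ker → x ∈ cen (ρ k) ⊤ (ρ k '' B) := by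
    filter_upwards [t.eventually (vn' (cg (h.c k) hR.2))] with x hx hb
    refine ⟨trivial, ?_⟩
    rintro _ ⟨b, hb', rfl⟩
    rw [← hx.1]
    exact ((c1 hb').2 _ (hx.2 ⟨x, hb, rfl⟩)).symm.exp_left
  filter_upwards [isCompact_univ.eventually_forall_of_forall_eventually (x₀ := (1 : K))
    (P := fun b r => b * r * b⁻¹ * r⁻¹ ∈ B ⊓ (ρ i).ker → b * r * b⁻¹ * r⁻¹ ∈ cen (ρ k) ⊤ (ρ k '' B))
    fun r _ => (Continuous.tendsto' (f := fun z : K × K => z.1 * z.2 * z.1⁻¹ * z.2⁻¹) (by fun_prop)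
      (1, r) 1 (by simp)).eventually u] with x hx hb
  exact ⟨hb, fun r hr => hx r trivial (mul_mem (hR.1.conj_mem r hr x) (inv_mem hr))⟩

/-- every nontrivial closed normal subgroup of a compact group contains a nontrivial closed normal
subgroup which is profinite or of semisimple Lie type -/
theorem struct (h : Fam ρ) {E : Subgroup K} (hE : CN E) (h2 : E ≠ ⊥) :
    ∃ F ≤ E, CN F ∧ F ≠ ⊥ ∧ ((∀ i, (ρ i '' F).Finite) ∨ ∃ i, (∀ x ∈ F, ρ i x = 1 → x = 1) ∧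
      ∀ D : Subgroup K, D.Normal → D ≤ F → D ≠ ⊥ → ∃ d ∈ D, d ≠ 1 ∧ d ^ 2 = 1) := by
  by_cases k : ∀ i, (ρ i '' E).Finite
  · exact ⟨E, le_rfl, hE, h2, Or.inl k⟩
  obtain ⟨i, hi⟩ := not_forall.1 k
  obtain ⟨B, b1, hB⟩ := exMi (h.c i) hE hi
  by_cases hz : cm B B ⊥ = ⊥
  swap
  · obtain ⟨F, f1, f2, f3, f4⟩ := abel h (cm_cn hB.1 hB.1.1 isClosed_singleton) (fun a x b y =>
      show a * b = b * a by simpa [mul_inv_eq_iff_eq_mul] using x.2 b y.1) hz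
    exact ⟨F, fun x hx => b1 (f1 hx).1, f2, f3, Or.inl f4⟩
  have inj (r) (hr : r ∈ B) (h1 : ρ i r = 1) : r = 1 := by
    refine hz.le ⟨hr, fun b hb => ?_⟩
    have m := mul_mem (hB.1.1.conj_mem r hr b) (inv_mem hr)
    have : b * r * b⁻¹ * r⁻¹ ∈ (⊥ : Subgroup K) := hz.le ⟨m, fun c hc => by_contra fun e => by
      obtain ⟨j, hj⟩ := h.sep _ e
      obtain ⟨k, hk⟩ := h.dir i j
      have := ((comm3 h (fun x a => (hk x a).1) hB hb).2 r ⟨hr, h1⟩).2 _ ⟨c, hc, rfl⟩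
      refine hj (hk _ ?_).2
      generalize b * r * b⁻¹ * r⁻¹ = z at this ⊢
      rw [map_mul, map_mul, map_mul, this.eq]
      simp only [← map_mul]
      simp⟩
    simpa [mul_assoc] using inv_mem this
  refine ⟨B, b1, hB.1, fun e => hB.2.1 (by simp [e]), Or.inr ⟨i, inj, fun D d1 d2 d3 =>
    invol (h.c i) hB inj hz d1 d2 d3⟩⟩

end Pool.Agent.Lib.helper13.CptB
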