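import Mathlib
import Pool.Agent.Lib.helper13.VN

set_option autoImplicit false

namespace Pool.Agent.Lib.helper13.LieG

open Set Filter Topology NormedSpace Pool.Agent.Lib.helper13.VN
open scoped ContDiff Manifold

variable {A : Type} [NormedRing A] [NormedAlgebra ℝ A] [CompleteSpace A] [FiniteDimensional ℝ A]
  {G : Type} [Group G] [TopologicalSpace G] [IsTopologicalGroup G]

theorem chart (ρ : G →* A) (hc : IsEmbedding ρ) (hr : IsClosed (range ρ)) :
    ∃ (d : ℕ) (e : OpenPartialHomeomorph G (EuclideanSpace ℝ (Fin d)))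
      (j : EuclideanSpace ℝ (Fin d) →L[ℝ] A) (p : A →L[ℝ] EuclideanSpace ℝ (Fin d)),
      1 ∈ e.source ∧ (∀ g, e g = p (lg (ρ g))) ∧ (∀ x, ρ (e.symm x) = exp (j x)) ∧
        ∀ g ∈ e.source, AnalyticAt ℝ lg (ρ g) := by
  have h : CG (range ρ) := ⟨⟨1, ρ.map_one⟩, by
    rintro _ ⟨x, rfl⟩ _ ⟨y, rfl⟩
    exact ⟨_, ρ.map_mul x y⟩, by
    rintro _ ⟨x, rfl⟩
    exact ⟨_, ⟨x⁻¹, rfl⟩, by simp [← map_mul]⟩, hr⟩
  obtain ⟨P, p1, p2⟩ := proj (lie h)
  let φ : lie h ≃L[ℝ] EuclideanSpace ℝ (Fin (Module.finrank ℝ (lie h))) :=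
    ContinuousLinearEquiv.ofFinrankEq (by simp)
  let j := (lie h).subtypeL ∘L φ.symm.toContinuousLinearMap
  let p := φ.toContinuousLinearMap ∘L P.codRestrict _ p1
  have jp (Y) (hY : Y ∈ lie h) : j (p Y) = Y := by simp [j, p, p2 Y hY]
  have pj (x) : p (j x) = x := by
    have : P.codRestrict _ p1 (j x) = φ.symm x := Subtype.ext (p2 _ (φ.symm x).2)
    simp [p, this]
  choose ex hex using fun x => exp_mem (h := h) (X := j x) (φ.symm x).2
  have c : Continuous ex := hc.continuous_iff.2 (by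
    rw [show ρ ∘ ex = _ from funext hex]
    fun_prop)
  obtain ⟨U, u1, u2, u3⟩ := eventually_nhds_iff.1 (lg_exp (A := A))
  obtain ⟨V, v1, v2, v3⟩ := eventually_nhds_iff.1 ((vn' h).and lg_an.eventually_analyticAt)
  have cl : ContinuousOn lg V := fun y hy => (v1 y hy).2.continuousAt.continuousWithinAt
  refine ⟨_,
    { toFun := fun g => p (lg (ρ g))
      invFun := ex
      source := ρ ⁻¹' (V ∩ lg ⁻¹' U)
      target := j ⁻¹' (U ∩ exp ⁻¹' V)
      map_source' := fun g hg => ?_
      map_target' := fun x hx => ?_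
      left_inv' := fun g hg => hc.injective ?_
      right_inv' := fun x hx => ?_
      open_source := (cl.isOpen_inter_preimage v2 u2).preimage hc.continuous
      open_target := (u2.inter (v2.preimage econt)).preimage j.continuous
      continuousOn_toFun := p.continuous.comp_continuousOn (cl.comp hc.continuous.continuousOn
        fun _ h => h.1)
      continuousOn_invFun := c.continuousOn }, j, p, ?_, fun _ => rfl, hex,
      fun g hg => (v1 _ hg.1).2⟩
  · rw [mem_preimage, jp _ ((v1 _ hg.1).1.2 ⟨g, rfl⟩)]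
    exact ⟨hg.2, by rw [mem_preimage, (v1 _ hg.1).1.1]; exact hg.1⟩
  · rw [mem_preimage, hex]
    exact ⟨hx.2, by rw [mem_preimage, u1 _ hx.1]; exact hx.1⟩
  · rw [hex, jp _ ((v1 _ hg.1).1.2 ⟨g, rfl⟩), (v1 _ hg.1).1.1]
  · rw [hex, u1 _ hx.1, pj]
  · simpa [lg_one] using ⟨v3, u3⟩

/-- a group embedded as a closed subset of a finite dimensional algebra is a Lie group -/
theorem lieGroup (ρ : G →* A) (hc : IsEmbedding ρ) (hr : IsClosed (range ρ)) :
    ∃ (d : ℕ) (_ : ChartedSpace (EuclideanSpace ℝ (Fin d)) G), LieGroup (𝓡 d) ω G := by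
  obtain ⟨d, e, j, p, e1, e2, e3, e4⟩ := chart ρ hc hr
  let ch : G → OpenPartialHomeomorph G (EuclideanSpace ℝ (Fin d)) := fun g =>
    (Homeomorph.mulLeft g⁻¹).transOpenPartialHomeomorph e
  let cs : ChartedSpace (EuclideanSpace ℝ (Fin d)) G :=
    { atlas := range ch
      chartAt := ch
      mem_chart_source := fun g => by simpa [ch] using e1
      chart_mem_atlas := fun g => ⟨g, rfl⟩ }
  have c1 (g x) : ch g x = p (lg (ρ g⁻¹ * ρ x)) := by simp [ch, e2]
  have c2 (g x) : ρ ((ch g).symm x) = ρ g * exp (j x) := by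
    rw [← e3, ← map_mul]
    exact congrArg (fun y => ρ (y * e.symm x)) (inv_inv g)
  have c3 (g x) (h : x ∈ (ch g).source) : AnalyticAt ℝ (fun a => p (lg (ρ g⁻¹ * a))) (ρ x) :=
    (p.analyticAt _).comp (AnalyticAt.comp (g := lg) (f := fun a => ρ g⁻¹ * a)
      (by simpa [ch] using e4 _ h) (by fun_prop))
  have c4 (g x) : AnalyticAt ℝ (fun x => ρ g * exp (j x)) x :=
    analyticAt_const.mul ((ean _).comp (j.analyticAt x))
  have m : IsManifold (𝓡 d) ω G := isManifold_of_contDiffOn _ _ _ (by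
    rintro _ _ ⟨g, rfl⟩ ⟨k, rfl⟩ x hx
    have : (fun x => ch k ((ch g).symm x)) = (fun a => p (lg (ρ k⁻¹ * a))) ∘
        fun x => ρ g * exp (j x) := funext fun x => by simp [c1, c2]
    have h2 := c3 k ((ch g).symm x) (by simpa using hx.1.2)
    rw [c2] at h2
    have h3 := (h2.comp (f := fun x => ρ g * exp (j x)) (c4 g x)).contDiffAt (n := ω)
    rw [← this] at h3
    exact h3.contDiffWithinAt)
  have a : ContMDiff (𝓡 d) 𝓘(ℝ, A) ω ρ := fun x => by
    refine contMDiffAt_iff.2 ⟨hc.continuous.continuousAt, ?_⟩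
    have := (c4 x (extChartAt (𝓡 d) x x)).contDiffAt (n := ω)
    rw [← funext (c2 x)] at this
    exact this.contDiffWithinAt
  have b {E M N : Type} [NormedAddCommGroup E] [NormedSpace ℝ E] [TopologicalSpace N]
      [TopologicalSpace M] [ChartedSpace N M] {I : ModelWithCorners ℝ E N} {f : M → G}
      (h1 : Continuous f) (h2 : ContMDiff I 𝓘(ℝ, A) ω fun x => ρ (f x)) :
      ContMDiff I (𝓡 d) ω f := fun x => by
    refine contMDiffAt_iff_target.2 ⟨h1.continuousAt, ?_⟩
    have := ((c3 (f x) (f x) (mem_chart_source _ _)).contDiffAt (n := ω)).comp_contMDiffAt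
      (f := fun x => ρ (f x)) (h2 x)
    exact this.congr_of_eventuallyEq (Eventually.of_forall fun y => c1 _ _)
  refine ⟨d, cs, { contMDiff_mul := b continuous_mul ?_, contMDiff_inv := b continuous_inv ?_ }⟩
  · simp only [map_mul]
    exact contDiff_mul.comp_contMDiff ((a.comp contMDiff_fst).prodMk_space (a.comp contMDiff_snd))
  · intro x
    have := (contDiffAt_ringInverse ℝ (n := ω) (ρ.toHomUnits x)).comp_contMDiffAt (f := ρ) (a x)
    refine this.congr_of_eventuallyEq (Eventually.of_forall fun y => ?_)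
    exact ((Ring.inverse_unit (ρ.toHomUnits y)).trans (by simp [← map_inv])).symm

end Pool.Agent.Lib.helper13.LieG
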