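import Mathlib
import Pool.Agent.Lib.helper13.CptB
import Pool.Agent.Lib.helper13.LieG
import Pool.Agent.Lib.helper23.MinE

set_option autoImplicit false

namespace Pool.Agent.Lib.helper13.CptC

open Set Filter Topology Function Pool.Agent.Lib.helper13.CptA Pool.Agent.Lib.helper13.CptB
  Pool.Agent.Lib.helper23

section
variable {K : Type} [Group K] [TopologicalSpace K] [IsTopologicalGroup K] [CompactSpace K]

omit [IsTopologicalGroup K] [CompactSpace K] in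
lemma repE {E : Type} [NormedAddCommGroup E] [NormedSpace ℝ E] [FiniteDimensional ℝ E]
    (l : K → E →ₗ[ℝ] E) (h1 : ∀ v, l 1 v = v) (h2 : ∀ x y v, l (x * y) v = l x (l y v))
    (h3 : ∀ v, Continuous fun x => l x v) : ∃ (A : Type) (_ : NormedRing A)
    (_ : NormedAlgebra ℝ A) (_ : CompleteSpace A) (_ : FiniteDimensional ℝ A) (ρ : K →* A),
      Continuous ρ ∧ ∀ x, ρ x = 1 ↔ ∀ v, l x v = v := by
  have : CompleteSpace E := FiniteDimensional.complete ℝ E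
  exact ⟨E →L[ℝ] E, inferInstance, inferInstance, inferInstance, inferInstance,
    { toFun := fun x => LinearMap.toContinuousLinearMap (l x)
      map_one' := ContinuousLinearMap.ext h1
      map_mul' := fun x y => ContinuousLinearMap.ext (h2 x y) }, continuous_clm_apply.2 h3,
    fun x => ContinuousLinearMap.ext_iff⟩

lemma repV {V : Submodule ℝ C(K, ℝ)} (h : PWN.BI V) : ∃ (A : Type) (_ : NormedRing A)
    (_ : NormedAlgebra ℝ A) (_ : CompleteSpace A) (_ : FiniteDimensional ℝ A) (ρ : K →* A),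
      Continuous ρ ∧ ∀ x, ρ x = 1 ↔ x ∈ PWN.S h := by
  have : FiniteDimensional ℝ V := Module.Finite.iff_fg.2 h.1
  obtain ⟨A, i1, i2, i3, i4, ρ, h1, h2⟩ := repE (K := K) (E := V)
    (fun x => (PWN.tr 1 x).toLinearMap.restrict fun f hf => h.2 f hf 1 x)
    (fun f => Subtype.ext (ContinuousMap.ext fun z => congrArg f.1 (by simp)))
    (fun x y f => Subtype.ext (ContinuousMap.ext fun z => congrArg f.1 (by simp [mul_assoc])))
    fun f => by
      refine continuous_induced_rng.2 ?_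
      exact (ContinuousMap.curry ⟨fun p : K × K => f.1 (1 * p.2 * p.1), by fun_prop⟩).continuous
  refine ⟨A, i1, i2, i3, i4, ρ, h1, fun x => (h2 x).trans ⟨fun e f hf => ?_, fun e f =>
    Subtype.ext (ContinuousMap.ext fun z => ?_)⟩⟩
  · have : f (1 * 1 * x) = f 1 := congrArg (fun T : V => T.1 1) (e ⟨f, hf⟩)
    simpa using this
  · show f.1 (1 * z * x) = f.1 z
    simpa using e _ (h.2 f.1 f.2 z 1)

variable [T2Space K]

/-- Peter-Weyl family with the shrinking property -/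
theorem reps : ∃ (ι : Type) (A : ι → Type) (_ : ∀ i, NormedRing (A i))
    (_ : ∀ i, NormedAlgebra ℝ (A i)) (_ : ∀ i, CompleteSpace (A i))
    (_ : ∀ i, FiniteDimensional ℝ (A i)) (ρ : ∀ i, K →* A i), Fam ρ ∧ ((∃ i, Injective (ρ i)) ∨
      ∃ E : ℕ → Subgroup K, (∀ n, CN (E n) ∧ E n ≠ ⊥) ∧ ∀ i, ∀ᶠ n in atTop, ∀ x ∈ E n, ρ i x = 1) := by
  choose A i1 i2 i3 i4 ρ h1 h2 using fun V : {V : Submodule ℝ C(K, ℝ) // PWN.BI V} => repV V.2
  have hF : Fam ρ := ⟨h1, fun V W => ⟨⟨V.1 ⊔ W.1, V.2.1.sup W.2.1, fun f hf y w => by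
      obtain ⟨a, ha, b, hb, rfl⟩ := Submodule.mem_sup.1 hf
      exact map_add (PWN.tr y w) a b ▸ Submodule.add_mem_sup (V.2.2 a ha y w) (W.2.2 b hb y w)⟩,
    fun x hx => ⟨(h2 _ _).2 fun f hf => (h2 _ _).1 hx f (Submodule.mem_sup_left hf),
      (h2 _ _).2 fun f hf => (h2 _ _).1 hx f (Submodule.mem_sup_right hf)⟩⟩, fun x hx => by
    obtain ⟨V, h, k⟩ := MinE.sepS x
    exact ⟨⟨V, h⟩, fun e => k hx ((h2 _ _).1 e)⟩⟩
  refine ⟨_, A, i1, i2, i3, i4, ρ, hF, or_iff_not_imp_left.2 fun k => ?_⟩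
  have this (i) : ∃ j y, (∀ x, ρ j x = 1 → ρ i x = 1) ∧ ρ i y = 1 ∧ ρ j y ≠ 1 := by
    obtain ⟨y, y1, y2⟩ : ∃ y, ρ i y = 1 ∧ y ≠ 1 := by
      by_contra! e
      exact k ⟨i, (injective_iff_map_eq_one _).2 e⟩
    obtain ⟨j, hj⟩ := hF.sep y y2
    obtain ⟨l, hl⟩ := hF.dir i j
    exact ⟨l, y, fun x a => (hl x a).1, y1, fun a => hj (hl y a).2⟩
  choose nx y n1 n2 n3 using this
  let s : ℕ → {V : Submodule ℝ C(K, ℝ) // PWN.BI V} := fun n =>
    nx^[n] ⟨⊥, Submodule.fg_bot, by simp⟩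
  have e (n) : s (n + 1) = nx (s n) := iterate_succ_apply' _ _ _
  obtain ⟨E, e1, e2⟩ := MinE.chainK (fun n => (ρ (s n)).ker) (fun n => y (s n))
    (antitone_nat_of_succ_le fun n x hx => n1 _ x (e n ▸ hx))
    (fun n => ⟨inferInstance, isClosed_eq (h1 _) continuous_const⟩)
    fun n => ⟨n2 _, fun a => n3 _ (e n ▸ a)⟩
  exact ⟨E, fun n => ⟨⟨(e1 n).1, (e1 n).2.1⟩, (e1 n).2.2⟩, fun V =>
    (e2 V.1 V.2).mono fun n hn x hx => (h2 _ _).2 (hn hx)⟩

omit [TopologicalSpace K] [IsTopologicalGroup K] [CompactSpace K] [T2Space K] in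
lemma finJ {M : Type} [Monoid M] (ρ : K →* M) (J : ℕ → Subgroup K)
    (h1 : ∀ n m, J n ≤ Subgroup.normalizer (J m)) (h2 : ∀ n, (ρ '' J n).Finite) {d : ℕ → K}
    (h3 : ∀ n, d n ∈ J n) (h4 : ∀ᶠ n in atTop, ρ (d n) = 1) :
    (ρ '' Subgroup.closure (range d)).Finite := by
  obtain ⟨m, hm⟩ := eventually_atTop.1 h4
  have (m : ℕ) : (ρ '' (⨆ n < m, J n : Subgroup K)).Finite := by
    induction m with
    | zero => simp
    | succ m ih =>
      rw [Nat.iSup_lt_succ, Subgroup.coe_mul_of_left_le_normalizer_right _ _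
        (iSup₂_le fun n _ => h1 n m), image_mul]
      exact ih.mul (h2 m)
  refine (this m).subset ?_
  rintro _ ⟨x, hx, rfl⟩
  obtain ⟨a, a1, b, b1, rfl⟩ := Subgroup.mem_sup_of_normal_right.1 ((Subgroup.closure_le
    ((⨆ n < m, J n) ⊔ ρ.ker)).2 (range_subset_iff.2 fun n => (lt_or_ge n m).elim (fun h =>
      Subgroup.mem_sup_left (le_iSup₂ (f := fun n (_ : n < m) => J n) n h (h3 n)))
        fun h => Subgroup.mem_sup_right (hm n h)) hx)
  exact ⟨a, a1, by rw [map_mul, show ρ b = 1 from b1, mul_one]⟩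

variable {ι : Type} {A : ι → Type} [∀ i, NormedRing (A i)] [∀ i, NormedAlgebra ℝ (A i)]
  [∀ i, CompleteSpace (A i)] [∀ i, FiniteDimensional ℝ (A i)] {ρ : ∀ i, K →* A i}

theorem seq (h : Fam ρ) {E : ℕ → Subgroup K} (e1 : ∀ n, CN (E n) ∧ E n ≠ ⊥)
    (e2 : ∀ i, ∀ᶠ n in atTop, ∀ x ∈ E n, ρ i x = 1) (G : Subgroup K)
    (es : ∀ N, CN N → N ≠ ⊥ → ∃ g ∈ G, g ≠ 1 ∧ g ∈ N) (gd : ∀ i k, ∃ g ∈ G, ρ i g = ρ i k) :
    ∃ d : ℕ → K, (∀ n, d n ∈ G ∧ d n ≠ 1) ∧ ∀ i, (∀ᶠ n in atTop, ρ i (d n) = 1) ∧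
      (ρ i '' Subgroup.closure (range d)).Finite := by
  choose F f1 f2 f3 f4 using fun n => struct h (e1 n).1 (e1 n).2
  by_cases k : ∃ᶠ n in atTop, ∀ i, (ρ i '' F n).Finite
  · obtain ⟨φ, a1, a2⟩ := extraction_of_frequently_atTop k
    choose d d1 d2 d3 using fun n => es _ (f2 (φ n)) (f3 _)
    have this (i) : ∀ᶠ n in atTop, ρ i (d n) = 1 :=
      (a1.tendsto_atTop.eventually (e2 i)).mono fun n hn => hn _ (f1 _ (d3 n))
    exact ⟨d, fun n => ⟨d1 n, d2 n⟩, fun i => ⟨this i, finJ _ (fun n => F (φ n)) (fun n m =>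
      @Subgroup.le_normalizer_of_normal _ _ _ _ (f2 _).1) (fun n => a2 n i) d3 (this i)⟩⟩
  have k' := (not_frequently.1 k).mono fun n hn => (f4 n).resolve_left hn
  obtain ⟨φ, a1, a2⟩ := exists_seq_of_forall_finset_exists (fun n => ∃ i, (∀ x ∈ F n,
    ρ i x = 1 → x = 1) ∧ ∀ D : Subgroup K, D.Normal → D ≤ F n → D ≠ ⊥ → ∃ d ∈ D, d ≠ 1 ∧ d ^ 2 = 1)
    (fun m n => m < n ∧ Disjoint (F m) (F n)) fun s hs => (k'.and ((eventually_all_finset s).2
      fun m hm => (eventually_gt_atTop m).and ((e2 (hs m hm).choose).mono fun n hn =>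
        Subgroup.disjoint_def.2 fun a b => (hs m hm).choose_spec.1 _ a (hn _ (f1 _ b))))).exists
  have this (n) : ∃ d ∈ F (φ n) ⊓ G, d ≠ 1 ∧ d ^ 2 = 1 := by
    obtain ⟨i, b1, b2⟩ := a1 n
    obtain ⟨g, g1, g2, g3⟩ := es _ (f2 (φ n)) (f3 _)
    refine b2 _ ⟨fun x hx k => ⟨(f2 _).1.conj_mem x hx.1 k, ?_⟩⟩ inf_le_left
      fun e => g2 (e.le ⟨g3, g1⟩)
    obtain ⟨g, g1, g2⟩ := gd i k
    have e : ρ i g⁻¹ = ρ i k⁻¹ := congrArg (fun u : (A i)ˣ => u⁻¹.1)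
      (Units.ext g2 : (ρ i).toHomUnits g = (ρ i).toHomUnits k)
    have := b1 _ (mul_mem (inv_mem ((f2 _).1.conj_mem x hx.1 g)) ((f2 _).1.conj_mem x hx.1 k)) (by
      rw [map_mul, map_mul _ (k * x), map_mul _ k, ← g2, ← e]
      simp only [← map_mul]
      rw [inv_mul_cancel, map_one])
    rw [← inv_mul_eq_one.1 this]
    exact G.mul_mem (G.mul_mem g1 hx.2) (G.inv_mem g1)
  choose d d1 d2 d3 using this
  have c (n m) : Commute (d n) (d m) := by
    rcases lt_trichotomy n m with h | rfl | h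
    · exact Subgroup.commute_of_normal_of_disjoint _ _ (f2 _).1 (f2 _).1 (a2 _ _ h).2 _ _
        (d1 n).1 (d1 m).1
    · rfl
    · exact (Subgroup.commute_of_normal_of_disjoint _ _ (f2 _).1 (f2 _).1 (a2 _ _ h).2 _ _
        (d1 m).1 (d1 n).1).symm
  have this (i) : ∀ᶠ n in atTop, ρ i (d n) = 1 := ((StrictMono.tendsto_atTop fun m n h =>
    (a2 m n h).1).eventually (e2 i)).mono fun n hn => hn _ (f1 _ (d1 n).1)
  refine ⟨d, fun n => ⟨(d1 n).2, d2 n⟩, fun i => ⟨this i, finJ _ (fun n => Subgroup.zpowers (d n))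
    (fun n m => Subgroup.zpowers_le.2 (Subgroup.centralizer_le_normalizer _ ?_)) (fun n =>
      Finite.image _ (isOfFinOrder_iff_pow_eq_one.2 ⟨2, two_pos, d3 n⟩).finite_zpowers)
      (fun n => Subgroup.mem_zpowers _) (this i)⟩⟩
  rintro _ ⟨k, rfl⟩
  exact (c m n).zpow_left k

omit [IsTopologicalGroup K] [T2Space K] [∀ i, NormedAlgebra ℝ (A i)] [∀ i, CompleteSpace (A i)]
  [∀ i, FiniteDimensional ℝ (A i)] in
lemma small [Nonempty ι] (h : Fam ρ) {U : Set K} (hU : U ∈ 𝓝 1) : ∃ i, ∀ x, ρ i x = 1 → x ∈ U := by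
  obtain ⟨V, v1, v2, v3⟩ := mem_nhds_iff.1 hU
  obtain ⟨i, hi⟩ := v2.isClosed_compl.isCompact.elim_directed_family_closed
    (fun i => {x | ρ i x = 1}) (fun i => isClosed_eq (h.c i) continuous_const)
    (eq_empty_of_forall_notMem fun x hx => by
      obtain ⟨i, hi⟩ := h.sep x fun e => hx.1 (e ▸ v3)
      exact hi (mem_iInter.1 hx.2 i)) fun i j => (h.dir i j).imp fun k hk =>
        ⟨fun x a => (hk x a).1, fun x a => (hk x a).2⟩
  exact ⟨i, fun x a => v1 (by_contra fun b => hi.le ⟨b, a⟩)⟩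

end

lemma cnt : {U : Subgroup (FreeGroup ℕ) | U.FiniteIndex ∧ U.Normal ∧
    ∀ᶠ n in atTop, FreeGroup.of n ∈ U}.Countable := by
  let r (m : ℕ) : FreeGroup ℕ →* FreeGroup (Fin m) :=
    FreeGroup.lift fun n => if h : n < m then FreeGroup.of ⟨n, h⟩ else 1
  refine (countable_range fun p : Σ m, Finset (FreeGroup (Fin m)) =>
    (Subgroup.closure (p.2 : Set _)).comap (r p.1)).mono fun U ⟨h1, h2, h3⟩ => ?_
  obtain ⟨m, hm⟩ := eventually_atTop.1 h3
  let s : FreeGroup (Fin m) →* FreeGroup ℕ := FreeGroup.map Fin.val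
  have : (U.comap s).FiniteIndex := ⟨by
    rw [Subgroup.index_comap]; exact Subgroup.FiniteIndex.index_ne_zero⟩
  obtain ⟨T, hT⟩ := (Group.fg_iff_subgroup_fg _).1 (Subgroup.fg_of_index_ne_zero (U.comap s))
  refine ⟨⟨m, T⟩, ?_⟩
  have e : ((QuotientGroup.mk' U).comp s).comp (r m) = QuotientGroup.mk' U :=
    FreeGroup.ext_hom _ _ fun n => by
      by_cases h : n < m
      · simp [r, s, h]
      · simpa [r, h] using ((QuotientGroup.eq_one_iff _).2 (hm n (not_lt.1 h))).symm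
  ext x
  dsimp only
  rw [hT, Subgroup.mem_comap, Subgroup.mem_comap, ← QuotientGroup.eq_one_iff,
    ← QuotientGroup.eq_one_iff]
  exact Eq.to_iff (congrArg (· = 1) (DFunLike.congr_fun e x))

end Pool.Agent.Lib.helper13.CptC
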