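import Mathlib
import Pool.Agent.Lib.helper13.CptA

set_option autoImplicit false

namespace Pool.Agent.Lib.helper13.Tori

open Set Filter Topology NormedSpace Pool.Agent.Lib.helper13.VN Pool.Agent.Lib.helper13.CptA
  MeasureTheory Polynomial

lemma plane {V : Type} [AddCommGroup V] [Module ℝ V] [FiniteDimensional ℝ V] [Nontrivial V]
    (f : Module.End ℝ V) : ∃ w : V, w ≠ 0 ∧ ∃ a b : ℝ, f (f w) = a • f w + b • w := by
  have key (n : ℕ) : ∀ p : ℝ[X], p.IsMonicOfDegree n → ∀ v : V, v ≠ 0 → aeval f p v = 0 →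
      ∃ w : V, w ≠ 0 ∧ ∃ a b : ℝ, f (f w) = a • f w + b • w := by
    induction n using Nat.twoStepInduction with
    | zero => exact fun p hp v hv h => (hv (by simpa [isMonicOfDegree_zero_iff.1 hp] using h)).elim
    | one =>
      intro p hp v hv h
      obtain ⟨r, rfl⟩ := isMonicOfDegree_one_iff.1 hp
      refine ⟨v, hv, -r, 0, ?_⟩
      have : f v = -r • v := by simpa [add_eq_zero_iff_eq_neg] using h
      simp [this]
    | more n ih _ =>
      intro p hp v hv h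
      obtain ⟨p₁, p₂, h1, h2, rfl⟩ := hp.eq_isMonicOfDegree_two_mul_isMonicOfDegree
      by_cases k : aeval f p₂ v = 0
      · exact ih _ h2 v hv k
      obtain ⟨a, b, rfl⟩ := isMonicOfDegree_two_iff.1 h1
      refine ⟨_, k, -a, -b, ?_⟩
      rw [map_mul, Module.End.mul_apply] at h
      generalize aeval f p₂ v = w at h
      simp [sq, add_assoc, add_eq_zero_iff_eq_neg] at h
      simp [h, add_comm]
  obtain ⟨v, hv⟩ := exists_ne (0 : V)
  exact key _ _ ⟨rfl, f.charpoly_monic⟩ v hv (by simp [f.aeval_self_charpoly])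

variable {A : Type} [NormedRing A] [NormedAlgebra ℝ A]
  {K : Type} [Group K]

/-- conjugation -/
def Ad (ρ : K →* A) (k : K) : A →ₐ[ℝ] A where
  toFun x := ρ k * x * ρ k⁻¹
  map_one' := by simp [← map_mul]
  map_mul' x y := by simp [mul_assoc, ← mul_assoc (ρ k⁻¹), ← map_mul]
  map_zero' := by simp
  map_add' x y := by simp [mul_add, add_mul]
  commutes' r := by simp [Algebra.algebraMap_eq_smul_one, ← map_mul]

variable {ρ : K →* A}

lemma Ad_ap (k : K) (x : A) : Ad ρ k x = ρ k * x * ρ k⁻¹ := rfl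

lemma Ad_mul (k l : K) (x : A) : Ad ρ (k * l) x = Ad ρ k (Ad ρ l x) := by
  simp [Ad_ap, mul_assoc]

@[simp] lemma Ad_one (x : A) : Ad ρ 1 x = x := by simp [Ad_ap]

@[simp] lemma Ad_inv (k : K) (x : A) : Ad ρ k⁻¹ (Ad ρ k x) = x := by simp [← Ad_mul]

@[simp] lemma Ad_inv' (k : K) (x : A) : Ad ρ k (Ad ρ k⁻¹ x) = x := by simp [← Ad_mul]

/-- centraliser of a set in a subspace -/
def ct (L : Submodule ℝ A) (W : Set A) : Submodule ℝ A where
  carrier := {X | X ∈ L ∧ ∀ Y ∈ W, Commute X Y}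
  zero_mem' := ⟨zero_mem _, fun _ _ => Commute.zero_left _⟩
  add_mem' a b := ⟨add_mem a.1 b.1, fun Y h => (a.2 Y h).add_left (b.2 Y h)⟩
  smul_mem' c _ a := ⟨L.smul_mem c a.1, fun Y h => (a.2 Y h).smul_left c⟩

variable [FiniteDimensional ℝ A]

/-- stabiliser of a subspace -/
def st (ρ : K →* A) (W : Submodule ℝ A) : Subgroup K where
  carrier := {k | ∀ x ∈ W, Ad ρ k x ∈ W}
  one_mem' x h := by simpa using h
  mul_mem' a b x h := Ad_mul (ρ := ρ) _ _ x ▸ a _ (b x h)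
  inv_mem' {k} a x h := by
    obtain ⟨y, hy⟩ := LinearMap.surjective_of_injective (f := (Ad ρ k).toLinearMap.restrict a)
      (fun u v e => Subtype.ext ((Ad_inv k u.1).symm.trans
        ((congrArg (fun z : W => Ad ρ k⁻¹ z.1) e).trans (Ad_inv k v.1)))) ⟨x, h⟩
    have : Ad ρ k y = x := congrArg Subtype.val hy
    simp [← this]

lemma ct_st {L W : Submodule ℝ A} {k : K} (h1 : k ∈ st ρ L) (h2 : k ∈ st ρ W) :
    k ∈ st ρ (ct L W) := fun x hx => ⟨h1 x hx.1, fun Y hY => by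
  simpa using (hx.2 _ (inv_mem h2 Y hY)).map (Ad ρ k)⟩

variable [TopologicalSpace K] [IsTopologicalGroup K] (hc : Continuous ρ)
include hc

lemma st_cl (W : Submodule ℝ A) : IsClosed (st ρ W : Set K) := by
  have : (st ρ W : Set K) = ⋂ x ∈ W, (fun k => ρ k * x * ρ k⁻¹) ⁻¹' W :=
    Set.ext fun b => (mem_iInter₂ (s := fun x (_ : x ∈ W) =>
      (fun k => ρ k * x * ρ k⁻¹) ⁻¹' W)).symm
  exact this ▸ isClosed_biInter fun _ _ => W.closed_of_finiteDimensional.preimage (by fun_prop)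

variable [CompactSpace K] [T2Space K] [CompleteSpace A]

lemma maschkeN {N : Subgroup K} (hN : IsClosed (N : Set K)) {W : Submodule ℝ A} (h : N ≤ st ρ W) :
    ∃ P : A →L[ℝ] A, (∀ x, P x ∈ W) ∧ (∀ x ∈ W, P x = x) ∧
      ∀ k ∈ N, ∀ x, P (Ad ρ k x) = Ad ρ k (P x) := by
  have : CompactSpace N := isCompact_iff_compactSpace.1 hN.isCompact
  obtain ⟨P, a, b, c⟩ := maschke (ρ := ρ.comp N.subtype) (hc.comp continuous_subtype_val) (W := W)
    fun k => h k.2
  exact ⟨P, a, b, fun k hk => c ⟨k, hk⟩⟩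

omit hc [FiniteDimensional ℝ A] in
lemma dAd (X Y : A) :
    HasDerivAt (fun t : ℝ => exp (t • X) * Y * exp (t • -X)) (X * Y - Y * X) 0 :=
  (((ed0 X).hasDerivAt.mul_const Y).mul (ed0 (-X)).hasDerivAt).congr_deriv
    (by simp [sub_eq_add_neg])

omit hc [FiniteDimensional ℝ A] [TopologicalSpace K] [IsTopologicalGroup K] [CompactSpace K]
  [T2Space K] in
lemma eAd {X : A} {t : ℝ} {b : K} (e : ρ b = exp (t • X)) (Y : A) :
    exp (t • X) * Y * exp (t • -X) = Ad ρ b Y ∧ exp (t • -X) * Y * exp (t • - -X) = Ad ρ b⁻¹ Y := by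
  have : exp (t • -X) = ρ b⁻¹ := by
    rw [← mul_one (exp _), ← ρ.map_one, ← mul_inv_cancel b, map_mul, e, ← mul_assoc, smul_neg,
      eneg', one_mul]
  simp only [neg_neg, Ad_ap, ← e, this, inv_inv, and_self]

variable {B : Subgroup K} (hB : IsClosed (B : Set K))

omit [FiniteDimensional ℝ A] [IsTopologicalGroup K] [T2Space K] in
lemma br {P : A →L[ℝ] A} (hP : ∀ k ∈ B, ∀ x, P (Ad ρ k x) = Ad ρ k (P x)) {X : A}
    (hX : X ∈ lie (cg hc hB)) (Y : A) : P (X * Y - Y * X) = X * P Y - P Y * X := by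
  refine (P.hasFDerivAt.comp_hasDerivAt 0 (dAd X Y)).unique ((dAd X (P Y)).congr_of_eventuallyEq
    (Eventually.of_forall fun t => ?_))
  obtain ⟨b, hb, e⟩ := hX t
  simp only [Function.comp, (eAd e _).1, hP b hb]

omit [IsTopologicalGroup K] [T2Space K] in
lemma le_st : B ≤ st ρ (lie (cg hc hB)) := fun k hk Y hY t => by
  obtain ⟨b, b1, b2⟩ := hY t
  rw [Ad_ap, ← smul_mul_assoc, ← mul_smul_comm, econj (by simp [← map_mul]) (by simp [← map_mul]),
    ← b2]
  exact ⟨_, mul_mem (mul_mem hk b1) (inv_mem hk), by simp⟩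

lemma br_mem {X Y : A} (hX : X ∈ lie (cg hc hB)) (hY : Y ∈ lie (cg hc hB)) :
    X * Y - Y * X ∈ lie (cg hc hB) := by
  obtain ⟨P, a, b, c⟩ := maschkeN hc hB (le_st hc hB)
  have := a (X * Y - Y * X)
  rwa [br hc hB c hX, b _ hY] at this

omit [FiniteDimensional ℝ A] [IsTopologicalGroup K] [T2Space K] in
lemma lie_cen (W : Set A) : lie (cg hc (cen_cl hc hB W)) = ct (lie (cg hc hB)) W := by
  ext X
  refine ⟨fun h => ⟨fun t => ?_, fun Y hY => comm_of fun t => ?_⟩, fun h t => ?_⟩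
  · obtain ⟨b, b1, b2⟩ := h t
    exact ⟨b, b1.1, b2⟩
  · obtain ⟨b, b1, b2⟩ := h t
    exact b2 ▸ b1.2 Y hY
  · obtain ⟨b, b1, b2⟩ := h.1 t
    exact ⟨b, ⟨b1, fun Y hY => b2 ▸ ((h.2 Y hY).smul_left t).exp_left⟩, b2⟩

/-- every element normalising the Lie algebra normalises a maximal abelian subalgebra -/
theorem torus {g : K} (hg : g ∈ st ρ (lie (cg hc hB))) :
    ∃ T : Submodule ℝ A, ct (lie (cg hc hB)) T = T ∧ g ∈ st ρ T := by
  induction h : Module.finrank ℝ (lie (cg hc hB)) using Nat.strong_induction_on generalizing B with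
  | _ n ih =>
  by_cases k : lie (cg hc hB) ≤ ct (lie (cg hc hB)) (lie (cg hc hB))
  · exact ⟨_, le_antisymm (fun _ h => h.1) k, hg⟩
  obtain ⟨P, p1, p2, p3⟩ := maschkeN hc (st_cl hc (lie (cg hc hB))) fun k hk => ct_st hk hk
  let M := lie (cg hc hB) ⊓ LinearMap.ker P.toLinearMap
  have m1 (x) (hx : x ∈ M) : Ad ρ g x ∈ M :=
    ⟨hg x hx.1, (p3 g hg x).trans (by rw [show P x = 0 from hx.2, map_zero])⟩
  have : Nontrivial M := Submodule.nontrivial_iff_ne_bot.2 fun e => k fun x hx => by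
    have : x - P x ∈ M := ⟨sub_mem hx (p1 x).1, show P _ = 0 by rw [map_sub, p2 _ (p1 x), sub_self]⟩
    rw [e, Submodule.mem_bot, sub_eq_zero] at this
    exact this ▸ p1 x
  obtain ⟨S, s1, s2, s3, s4⟩ : ∃ S ≤ M, S ≠ ⊥ ∧ (∀ x ∈ S, ∀ y ∈ S, Commute x y) ∧ g ∈ st ρ S := by
    obtain ⟨⟨X, hX⟩, x0, a, b, e⟩ := plane ((Ad ρ g).toLinearMap.restrict m1)
    replace e : Ad ρ g (Ad ρ g X) = a • Ad ρ g X + b • X := congrArg Subtype.val e
    by_cases c : Commute X (Ad ρ g X)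
    · refine ⟨Submodule.span ℝ {X, Ad ρ g X}, Submodule.span_le.2 (pair_subset hX (m1 X hX)),
        fun e => x0 (Subtype.ext (e.le (Submodule.subset_span (Or.inl rfl)))), fun x hx y hy => ?_,
        fun x hx => ?_⟩
      · obtain ⟨_, _, rfl⟩ := Submodule.mem_span_pair.1 hx
        obtain ⟨_, _, rfl⟩ := Submodule.mem_span_pair.1 hy
        exact ((((Commute.refl X).smul_right _).add_right (c.smul_right _)).smul_left _).add_left
          (((c.symm.smul_right _).add_right ((Commute.refl _).smul_right _)).smul_left _)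
      · obtain ⟨u, v, rfl⟩ := Submodule.mem_span_pair.1 hx
        exact Submodule.mem_span_pair.2 ⟨v * b, u + v * a, by rw [map_add, map_smul, map_smul, e]; module⟩
    · refine ⟨Submodule.span ℝ {X * Ad ρ g X - Ad ρ g X * X}, Submodule.span_le.2
        (singleton_subset_iff.2 ⟨br_mem hc hB hX.1 (m1 X hX).1, show P _ = 0 from ?_⟩),
        fun e => c (sub_eq_zero.1 (e.le (Submodule.subset_span rfl))), fun x hx y hy => ?_,
        fun x hx => ?_⟩
      · rw [br hc hB (fun k hk => p3 k (le_st hc hB hk)) hX.1, show P _ = 0 from (m1 X hX).2]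
        simp
      · obtain ⟨_, rfl⟩ := Submodule.mem_span_singleton.1 hx
        obtain ⟨_, rfl⟩ := Submodule.mem_span_singleton.1 hy
        exact ((Commute.refl _).smul_right _).smul_left _
      · obtain ⟨u, rfl⟩ := Submodule.mem_span_singleton.1 hx
        refine Submodule.mem_span_singleton.2 ⟨-(u * b), ?_⟩
        rw [map_smul, map_sub, map_mul, map_mul, e]
        simp only [mul_add, add_mul, mul_smul_comm, smul_mul_assoc]
        module
  obtain ⟨T, t1, t2⟩ := ih _ (h ▸ Submodule.finrank_lt_finrank_of_lt (lt_of_le_not_ge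
    (by rw [lie_cen hc hB]; exact fun _ h => h.1) fun k => s2 (eq_bot_iff.2 fun x hx => by
      rw [lie_cen hc hB] at k
      exact (p2 x ⟨(s1 hx).1, fun Y hY => ((k hY).2 x hx).symm⟩).symm.trans (s1 hx).2)))
    (cen_cl hc hB S) (by rw [lie_cen hc hB]; exact ct_st hg s4) rfl
  rw [lie_cen hc hB] at t1
  refine ⟨T, le_antisymm (fun x hx => t1.le ⟨⟨hx.1, fun Y hY => hx.2 Y (t1.le ⟨⟨(s1 hY).1,
    s3 Y hY⟩, fun Z hZ => ((t1.ge hZ).1.2 Y hY).symm⟩)⟩, hx.2⟩) fun x hx =>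
      ⟨(t1.ge hx).1.1, (t1.ge hx).2⟩, t2⟩

omit [T2Space K] [CompleteSpace A] in
lemma form : ∃ β : A →ₗ[ℝ] A →ₗ[ℝ] ℝ, (∀ x, β x x = 0 → x = 0) ∧
    ∀ k x y, β (Ad ρ k x) y = β x (Ad ρ k⁻¹ y) := by
  let e : A ≃L[ℝ] EuclideanSpace ℝ (Fin (Module.finrank ℝ A)) :=
    ContinuousLinearEquiv.ofFinrankEq (by simp)
  borelize K
  let μ : Measure K := Measure.haarMeasure ⊤
  have c (x y : A) : Continuous fun k => inner ℝ (e (Ad ρ k⁻¹ x)) (e (Ad ρ k⁻¹ y)) := by
    simp only [Ad_ap]; fun_prop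
  have i (x y : A) := (c x y).integrable_of_hasCompactSupport (μ := μ)
    (HasCompactSupport.of_compactSpace _)
  refine ⟨LinearMap.mk₂ ℝ (fun x y => ∫ k, inner ℝ (e (Ad ρ k⁻¹ x)) (e (Ad ρ k⁻¹ y)) ∂μ)
    (fun x y z => by simp [← integral_add (i _ _) (i _ _), inner_add_left])
    (fun a x y => by simp [← integral_const_mul, inner_smul_left])
    (fun x y z => by simp [← integral_add (i _ _) (i _ _), inner_add_right])
    (fun a x y => by simp [← integral_const_mul, inner_smul_right]), fun x h => by_contra fun k =>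
      ((c x x).integral_pos_of_hasCompactSupport_nonneg_nonzero (μ := μ) (x := 1)
        (HasCompactSupport.of_compactSpace _) (fun _ => real_inner_self_nonneg)
        (by simpa using k)).ne' h, fun k x y => ?_⟩
  simp only [LinearMap.mk₂_apply]
  rw [← integral_mul_left_eq_self _ k]
  simp [Ad_mul]

lemma hunt {X Y : A} (hX : X ∈ lie (cg hc hB)) (hY : Y ∈ lie (cg hc hB)) :
    ∃ k ∈ B, Commute (Ad ρ k X) Y := by
  obtain ⟨β, b1, b2⟩ := form hc
  let φ := LinearMap.toContinuousLinearMap (β.flip Y)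
  obtain ⟨k, k1, k2⟩ := hB.isCompact.exists_isMaxOn ⟨1, one_mem _⟩
    (f := fun k => φ (ρ k * X * ρ k⁻¹)) (by fun_prop)
  have m := le_st hc hB k1 X hX
  refine ⟨k, k1, sub_eq_zero.1 (b1 _ ?_)⟩
  have z := br_mem hc hB m hY
  generalize hZ : Ad ρ k X * Y - Y * Ad ρ k X = Z at z
  have h1 := IsLocalMax.hasDerivAt_eq_zero (IsMaxOn.isLocalMax (s := univ) (fun t _ => by
    obtain ⟨b, hb, e⟩ := z t
    have := k2 (mul_mem hb k1)
    simp only [mem_ofPred_eq, ← Ad_ap, Ad_mul] at this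
    simp only [mem_ofPred_eq, Function.comp, (eAd e _).1]
    simpa using this) univ_mem)
    (φ.hasFDerivAt.comp_hasDerivAt 0 (dAd Z (Ad ρ k X)))
  have h2 := (φ.hasFDerivAt.comp_hasDerivAt 0 (dAd (Ad ρ k X) Z)).unique
    (((LinearMap.toContinuousLinearMap (β Z)).hasFDerivAt.comp_hasDerivAt 0
      (dAd (-Ad ρ k X) Y)).congr_of_eventuallyEq (Eventually.of_forall fun t => by
        obtain ⟨b, -, e⟩ := m t
        simp only [Function.comp, (eAd e _).1, (eAd e _).2]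
        exact b2 b Z Y))
  rw [← neg_sub, map_neg, h1, show -Ad ρ k X * Y - Y * -Ad ρ k X = -Z by rw [← hZ]; noncomm_ring,
    map_neg, neg_inj] at h2
  exact h2.symm

/-- commuting families can be conjugated to commute with each other -/
theorem conj {S T : Set A} (s1 : S ⊆ lie (cg hc hB)) (s2 : ∀ x ∈ S, ∀ y ∈ S, Commute x y)
    (t1 : T ⊆ lie (cg hc hB)) (t2 : ∀ x ∈ T, ∀ y ∈ T, Commute x y) :
    ∃ k ∈ B, ∀ x ∈ S, ∀ y ∈ T, Commute x (Ad ρ k y) := by
  induction h : Module.finrank ℝ (lie (cg hc hB)) using Nat.strong_induction_on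
    generalizing B S T with
  | _ n ih =>
  by_cases a : ∀ x ∈ S, ∀ y ∈ lie (cg hc hB), Commute y x
  · exact ⟨1, one_mem _, fun x hx y hy => by simpa using (a x hx y (t1 hy)).symm⟩
  by_cases b : ∀ x ∈ T, ∀ y ∈ lie (cg hc hB), Commute y x
  · exact ⟨1, one_mem _, fun x hx y hy => by simpa using b y hy x (s1 hx)⟩
  push Not at a b
  have lt {X U : A} (h1 : U ∈ lie (cg hc hB)) (h2 : ¬ Commute U X) :
      Module.finrank ℝ (lie (cg hc (cen_cl hc hB {X}))) < n :=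
    h ▸ Submodule.finrank_lt_finrank_of_lt (by
      rw [lie_cen hc hB]; exact lt_of_le_not_ge (fun _ h => h.1) fun k => h2 ((k h1).2 X rfl))
  obtain ⟨X, a1, U, a2, a3⟩ := a
  obtain ⟨Y, b1, V, b2, b3⟩ := b
  obtain ⟨k, k1, k2⟩ := hunt hc hB (s1 a1) (t1 b1)
  obtain ⟨l, l1, l2⟩ := ih _ (lt b2 b3) (cen_cl hc hB {Y}) (S := {Ad ρ k X}) (T := T)
    (by rw [lie_cen hc hB]; rintro _ rfl; exact ⟨le_st hc hB k1 X (s1 a1), by simpa using k2⟩)
    (by simp) (by rw [lie_cen hc hB]; exact fun y hy => ⟨t1 hy, by simpa using t2 y hy Y b1⟩) t2 rfl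
  have m := mul_mem (inv_mem k1) l1.1
  obtain ⟨j, j1, j2⟩ := ih _ (lt a2 a3) (cen_cl hc hB {X}) (S := S) (T := Ad ρ (k⁻¹ * l) '' T)
    (by rw [lie_cen hc hB]; exact fun y hy => ⟨s1 hy, by simpa using s2 y hy X a1⟩) s2 (by
      rw [lie_cen hc hB]
      rintro _ ⟨y, hy, rfl⟩
      exact ⟨le_st hc hB m y (t1 hy), by
        simpa [Ad_mul] using ((l2 _ rfl y hy).map (Ad ρ k⁻¹)).symm⟩) (by
      rintro _ ⟨x, hx, rfl⟩ _ ⟨y, hy, rfl⟩
      exact (t2 x hx y hy).map _) rfl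
  exact ⟨_, mul_mem j1.1 m, fun x hx y hy => Ad_mul (ρ := ρ) j _ y ▸ j2 x hx _ ⟨y, hy, rfl⟩⟩

/-- the normaliser of a maximal abelian subalgebra meets every conjugacy class -/
theorem meets {T : Submodule ℝ A} (hT : ct (lie (cg hc hB)) T = T) {g : K}
    (hg : g ∈ st ρ (lie (cg hc hB))) : ∃ k ∈ B, k * g * k⁻¹ ∈ st ρ T := by
  obtain ⟨S, h1, h2⟩ := torus hc hB hg
  obtain ⟨k, k1, k2⟩ := conj hc hB (S := T) (T := S) (fun x h => (hT.ge h).1)
    (fun x h => (hT.ge h).2) (fun x h => (h1.ge h).1) fun x h => (h1.ge h).2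
  refine ⟨k, k1, fun x hx => ?_⟩
  have : Ad ρ k⁻¹ x ∈ S := h1.le ⟨le_st hc hB (inv_mem k1) x (hT.ge hx).1, fun y hy => by
    simpa using (k2 x hx y hy).map (Ad ρ k⁻¹)⟩
  rw [Ad_mul, Ad_mul]
  exact hT.le ⟨le_st hc hB k1 _ (h1.ge (h2 _ this)).1, fun y hy => (k2 y hy _ (h2 _ this)).symm⟩

end Pool.Agent.Lib.helper13.Tori
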