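import Mathlib
import Pool.Agent.Lib.helper13.CptC

set_option autoImplicit false

namespace Pool.Agent.Lib.helper13.CptD

open Set Filter Topology Function Pool.Agent.Lib.helper13.CptA Pool.Agent.Lib.helper13.CptB
  Pool.Agent.Lib.helper13.CptC Pool.Agent.Lib.helper23 TopologicalSpace
open scoped ContDiff Manifold

variable {G : Type} [Group G] [TopologicalSpace G] [IsTopologicalGroup G]

lemma metr [T2Space G] (h : (𝓝 (1 : G)).IsCountablyGenerated) : MetrizableSpace G := by
  let := IsTopologicalGroup.rightUniformSpace G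
  have : (uniformity G).IsCountablyGenerated := comap.isCountablyGenerated _ _
  exact UniformSpace.metrizableSpace

lemma nondisc [T2Space G] {ι : Type} {A : ι → Type} [∀ i, Monoid (A i)]
    [∀ i, TopologicalSpace (A i)] [∀ i, T2Space (A i)] (ρ : ∀ i, G →* A i)
    (hc : ∀ i, Continuous (ρ i)) (sm : ∀ U ∈ 𝓝 (1 : G), ∃ i, ∀ x, ρ i x = 1 → x ∈ U)
    {g : ℕ → G} (g1 : ∀ n, g n ≠ 1) (g2 : ∀ i, ∀ᶠ n in atTop, ρ i (g n) = 1)
    (g3 : ∀ i, (ρ i '' Subgroup.closure (range g)).Finite) :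
    ∃ L : Subgroup G, IsClosed (L : Set G) ∧ IsTopologicalBasis {U : Set L | IsClopen U} ∧
      MetrizableSpace L ∧ ¬ DiscreteTopology L := by
  let L := (Subgroup.closure (range g)).topologicalClosure
  have l1 (i) (x : L) : ρ i x ∈ ρ i '' Subgroup.closure (range g) :=
    closure_minimal (subset_preimage_image _ _) ((g3 i).isClosed.preimage (hc i)) x.2
  have o1 (i) : IsOpen (ρ i ⁻¹' (ρ i '' Subgroup.closure (range g) \ {1})ᶜ) :=
    ((g3 i).diff.isClosed.preimage (hc i)).isOpen_compl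
  let O : ι → Set L := fun i => {x | ρ i x = 1}
  have o2 (i) : IsClopen (O i) := ⟨isClosed_eq ((hc i).comp continuous_subtype_val)
    continuous_const, by
      convert (o1 i).preimage (continuous_subtype_val (p := (· ∈ L))) using 1
      ext x
      simp [O, l1 i x, -mem_image]⟩
  have b : (𝓝 (1 : L)).HasBasis (fun _ => True) O := ⟨fun U => ⟨fun hU => by
    obtain ⟨V, v1, v2⟩ := (mem_nhds_subtype _ _ _).1 hU
    obtain ⟨i, hi⟩ := sm V v1
    exact ⟨i, trivial, fun x hx => v2 (hi _ hx)⟩, fun ⟨i, _, hi⟩ =>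
      mem_of_superset ((o2 i).2.mem_nhds (ρ i).map_one) hi⟩⟩
  refine ⟨L, Subgroup.isClosed_topologicalClosure _, isTopologicalBasis_of_isOpen_of_nhds
    (fun _ h => h.2) fun a u ha hu => ?_, metr ?_, fun k => ?_⟩
  · obtain ⟨i, -, hi⟩ := b.mem_iff.1 (((continuous_const_mul a).tendsto' 1 a (mul_one a))
      (hu.mem_nhds ha))
    exact ⟨_, (o2 i).preimage (continuous_const_mul a⁻¹), by simp [O, -map_mul],
      fun x hx => by simpa using hi hx⟩
  · let π := FreeGroup.lift g
    have r : range O ⊆ (fun U : Subgroup (FreeGroup ℕ) => {x : L | x.1 ∈ closure (π '' U)}) ''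
        {U | U.FiniteIndex ∧ U.Normal ∧ ∀ᶠ n in atTop, FreeGroup.of n ∈ U} := by
      rintro _ ⟨i, rfl⟩
      have m (w) : π w ∈ Subgroup.closure (range g) := FreeGroup.range_lift_eq_closure.le ⟨w, rfl⟩
      refine ⟨((ρ i).toHomUnits.comp π).ker, ⟨?_, inferInstance, (g2 i).mono fun n hn =>
        Units.ext (by simpa [π] using hn)⟩, Set.ext fun x => ⟨fun hx => ?_, fun hx => ?_⟩⟩
      · have : Finite ((ρ i).toHomUnits.comp π).range := Set.Finite.of_finite_image
          (f := Units.val) (s := (((ρ i).toHomUnits.comp π).range : Set (A i)ˣ)) ((g3 i).subset (by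
            rintro _ ⟨_, ⟨w, rfl⟩, rfl⟩
            exact ⟨_, m w, rfl⟩)) Units.val_injective.injOn
        infer_instance
      · refine closure_minimal (t := {y | ρ i y = 1}) ?_ (isClosed_eq (hc i) continuous_const) hx
        rintro _ ⟨w, hw, rfl⟩
        exact congrArg Units.val hw
      · refine closure_mono (fun y hy => ?_) ((o1 i).inter_closure ⟨fun k => k.2 hx, x.2⟩)
        obtain ⟨w, rfl⟩ := FreeGroup.range_lift_eq_closure.ge hy.2
        exact ⟨w, Units.ext (by_contra fun k => hy.1 ⟨⟨_, m w, rfl⟩, k⟩), rfl⟩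
    exact (HasCountableBasis.mk (p := (· ∈ range O)) (s := id) (b.to_hasBasis
      (fun i _ => ⟨_, ⟨i, rfl⟩, subset_rfl⟩) fun _ ⟨i, e⟩ => ⟨i, trivial, e.le⟩)
        ((cnt.image _).mono r)).isCountablyGenerated
  · obtain ⟨i, -, hi⟩ := b.mem_iff.1 ((isOpen_discrete {(1 : L)}).mem_nhds rfl)
    obtain ⟨n, hn⟩ := (g2 i).exists
    exact g1 n (congrArg Subtype.val (hi (a := ⟨g n, Subgroup.le_topologicalClosure _
      (Subgroup.subset_closure ⟨n, rfl⟩)⟩) hn))

lemma pc_pre (h : ∀ f : G → ℝ, Continuous f → ∃ M, ∀ x, |f x| ≤ M) : MinC.PreM G := fun U hU => by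
  by_contra! k
  obtain ⟨u, -, hu⟩ := exists_seq_of_forall_finset_exists (fun _ : G => True)
    (fun a b => a⁻¹ * b ∉ U) fun s _ => (k s s.finite_toSet).imp fun _ h => ⟨trivial, h⟩
  obtain ⟨V, v1, v2⟩ := exists_nhds_one_split4 (inter_mem hU (inv_mem_nhds_one G hU))
  obtain ⟨W, w1, w2, w3⟩ := mem_nhds_iff.1 (inter_mem v1 (inv_mem_nhds_one G v1))
  let := IsTopologicalGroup.rightUniformSpace G
  obtain ⟨f, f1, f2, f3⟩ := CompletelyRegularSpace.completely_regular (1 : G) Wᶜ
    w2.isClosed_compl (not_not.2 w3)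
  let F : ℕ → G → ℝ := fun n x => n * (1 - f ((u n)⁻¹ * x))
  have s (n x) (hx : F n x ≠ 0) : (u n)⁻¹ * x ∈ W := by_contra fun e => hx (by simp [F, f3 e])
  have key {x y z : G} {m n} (a : x⁻¹ * y ∈ W) (b : x⁻¹ * z ∈ W) (c : F m y ≠ 0) (d : F n z ≠ 0) :
      m = n := by_contra fun e => by
    have := v2 (w1 (s m y c)).1 (w1 a).2 (w1 b).1 (w1 (s n z d)).2
    simp only [mul_inv_rev, inv_inv, mul_assoc, mul_inv_cancel_left] at this
    exact (lt_or_gt_of_ne e).elim (fun k => hu _ _ k this.1) fun k => hu _ _ k (by simpa using this.2)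
  obtain ⟨M, hM⟩ := h (fun x => ∑ᶠ n, F n x) (continuous_finsum (fun n => by fun_prop) fun x =>
    ⟨{y | x⁻¹ * y ∈ W}, ((continuous_const_mul x⁻¹).tendsto' x 1 (by simp)) (w2.mem_nhds w3),
      Set.Subsingleton.finite fun m ⟨y, a, b⟩ n ⟨z, c, d⟩ => key b d a c⟩)
  obtain ⟨n, hn⟩ := exists_nat_gt (max M 0)
  have e : F n (u n) = n := by simp [F, f2]
  have := hM (u n)
  rw [finsum_eq_single _ n fun m hm => by_contra fun c => hm (key (x := u n) (by simpa using w3)
    (by simpa using w3) c (e ▸ ((le_max_right _ _).trans_lt hn).ne')), e] at this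
  exact ((le_abs_self _).trans this).not_gt ((le_max_left _ _).trans_lt hn)

omit [Group G] [IsTopologicalGroup G] in
lemma gdel (h : ∀ f : G → ℝ, Continuous f → ∃ M, ∀ x, |f x| ≤ M) {K : Type} [TopologicalSpace K]
    {i : G → K} (hi : IsDenseInducing i) {q : K → ℝ} (hq : Continuous q) {k : K} (hk : q k = 0) :
    ∃ g, q (i g) = 0 := by
  by_contra! e
  obtain ⟨M, hM⟩ := h _ ((hq.comp hi.continuous).inv₀ e)
  have : 1 ≤ M * |q k| := hi.dense.induction_on k (isClosed_le continuous_const (by fun_prop))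
    fun g => by
      have := hM g
      rw [Pi.inv_apply, abs_inv] at this
      exact (inv_le_iff_one_le_mul₀ (abs_pos.2 (e g))).1 this
  simp [hk] at this
  linarith

/-- a pseudocompact minimal group all of whose closed metrizable zero-dimensional subgroups are
discrete is a compact Lie group -/
theorem main [T2Space G] (pc : ∀ f : G → ℝ, Continuous f → ∃ M, ∀ x, |f x| ≤ M)
    (mi : ∀ (H : Type) [Group H] [TopologicalSpace H] [IsTopologicalGroup H] [T2Space H]
      (f : G ≃* H), Continuous f → Continuous f.symm)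
    (zm : ∀ L : Subgroup G, IsClosed (L : Set G) → IsTopologicalBasis {U : Set L | IsClopen U} →
      MetrizableSpace L → DiscreteTopology L) :
    CompactSpace G ∧ MetrizableSpace G ∧
      ∃ (d : ℕ) (_ : ChartedSpace (EuclideanSpace ℝ (Fin d)) G), LieGroup (𝓡 d) ω G := by
  obtain ⟨K, _, _, _, _, _, i, hi⟩ := MinE.compl (pc_pre pc)
  have hL : MinB.LM (univ : Set G) := fun σ a b c _ => le_antisymm (continuous_id_iff_le.1
    (@mi G _ σ a b (MulEquiv.refl G) (continuous_id_iff_le.2 c))) c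
  obtain ⟨ι, A, _, _, _, _, ρ, hF, h⟩ := reps (K := K)
  have gd (j k) : ∃ g, ρ j (i g) = ρ j k := (gdel pc hi.toIsDenseInducing
    (q := fun x => ‖ρ j x - ρ j k‖) (by have := hF.c j; fun_prop) (k := k) (by simp)).imp
      fun g hg => by simpa [sub_eq_zero] using hg
  obtain ⟨j, hj⟩ | ⟨E, e1, e2⟩ := h
  · have s : Surjective i := fun k => (gd j k).imp fun g hg => hj hg
    have c : CompactSpace G := ⟨hi.isInducing.isCompact_iff.2 (by
      rw [image_univ, s.range_eq]; exact isCompact_univ)⟩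
    have e := (((hF.c j).comp hi.continuous).isClosedEmbedding (hj.comp hi.injective))
    exact ⟨c, e.isEmbedding.metrizableSpace,
      LieG.lieGroup ((ρ j).comp i) e.isEmbedding e.isClosed_range⟩
  obtain ⟨d, d1, d2⟩ := seq hF e1 e2 i.range (fun N a b => by
    obtain ⟨g, g1, g2⟩ := @MinE.ess _ _ _ _ hL _ _ _ _ _ _ hi.toIsDenseInducing _ a.1 a.2 b
    exact ⟨_, ⟨g, rfl⟩, fun e => g1 (hi.injective (e.trans i.map_one.symm)), g2⟩)
    fun j k => let ⟨g, hg⟩ := gd j k; ⟨_, ⟨g, rfl⟩, hg⟩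
  choose g hg using fun n => (d1 n).1
  have : Nonempty ι := ⟨(hF.sep _ (d1 0).2).choose⟩
  obtain ⟨L, l1, l2, l3, l4⟩ := nondisc (fun j => (ρ j).comp i)
    (fun j => (hF.c j).comp hi.continuous) (fun U hU => by
      rw [hi.isInducing.nhds_eq_comap, map_one] at hU
      obtain ⟨V, v1, v2⟩ := hU
      exact (small hF v1).imp fun j hj x hx => v2 (hj _ hx)) (g := g)
    (fun n e => (d1 n).2 (by rw [← hg, e, map_one])) (fun j => by simpa [hg] using (d2 j).1)
    fun j => (d2 j).2.subset (by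
      rintro _ ⟨x, hx, rfl⟩
      refine ⟨_, (Subgroup.closure_le ((Subgroup.closure (range d)).comap i)).2 ?_ hx, rfl⟩
      rintro _ ⟨n, rfl⟩
      exact Subgroup.subset_closure ⟨n, (hg n).symm⟩)
  exact (l4 (zm L l1 l2 l3)).elim

omit [Group G] [IsTopologicalGroup G] in
lemma cc_pc [CountablyCompactSpace G] (f : G → ℝ) (hf : Continuous f) : ∃ M, ∀ x, |f x| ≤ M := by
  obtain ⟨n, hn⟩ := (CountablyCompactSpace.isCountablyCompact_univ (E := G)).elim_directed_cover
    (fun n : ℕ => {x | |f x| < n}) (fun n => isOpen_lt hf.abs continuous_const)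
    (fun x _ => mem_iUnion.2 (exists_nat_gt |f x|)) (Monotone.directed_le fun m n h x hx =>
      show |f x| < n from lt_of_lt_of_le hx (Nat.cast_le.2 h))
  exact ⟨n, fun x => (hn trivial).le⟩

end Pool.Agent.Lib.helper13.CptD
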